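import Pool.Agent.H334R5.Cnt.Run
import Pool.Agent.H334R5.Clo.PolyPart
import Pool.Agent.H671R2.PolyAuto
import Pool.Agent.H687R2.IntPoly
import Pool.Agent.H550R2.Iso.Raw

/-!
# The algorithm runs in polynomial time
-/

set_option autoImplicit false

namespace Pool.Agent.H334R5.Cnt

open Pool.Agent.NPC

attribute [local fun_prop] Poly.iadd Poly.isub Poly.imul Poly.ineg Poly.ilt Poly.ile Poly.isum
  Poly.natAbs Poly.natCast Poly.toNat

section Gen

variable {α β : Type} [TEnc α] [TEnc β]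

theorem bits_poly : Poly (fun a : α => bits a) := by
  have h1 : PC (bits : α → List Bool) (fun x : List Bool => x) (fun a : α => bits a) :=
    PC.id (ea := (bits : α → List Bool))
  exact PC.comp (g := fun x => x) (f := fun a : α => bits a) PC.rawIn h1

theorem usz {f : α → β} (hf : Poly f) : UPoly (fun a => sz (f a)) := by
  have h1 : UPoly (fun a => (bits (f a)).length) := UPoly.length (bits_poly.comp hf)
  exact h1

/-- From the official notion to the internal one. -/
theorem FPoly.poly [TDec β] {f : α → β} (hf : FPoly f) : Poly f := by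
  obtain ⟨F, hF, hFf⟩ := hf
  have h0 : Poly F := PIso.poly_iff.2 hF
  have h1 : Poly (fun a : α => F (bits a)) := h0.comp bits_poly
  have h2 : Poly (fun a : α => unbits β (F (bits a))) := poly_unbits.comp h1
  refine Poly.of_toT ?_
  have h3 : Poly (fun a : α => (unbits β (F (bits a))).elim T.nil toT) :=
    Poly.optElim (h := fun (_ : α) (b : β) => toT b) h2 (NPC.Poly.const T.nil)
      (Poly.toT' (Poly.snd Poly.id))
  refine h3.congr fun a => ?_
  rw [hFf, unbits_bits]
  rfl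

/-- From the internal notion to the official one. -/
theorem fpoly_of_poly [TDec α] {f : α → β} (hf : Poly f) : FPoly f := by
  have h1 : Poly (fun x : List Bool => (unbits α x).map f) :=
    Poly.optMap_fp (h := fun (_ : List Bool) (a : α) => f a) poly_unbits
      (hf.comp (Poly.snd Poly.id))
  refine ⟨_, polyTime_opt h1, fun a => ?_⟩
  simp only [unbits_bits, Option.map_some]

end Gen

variable {α : Type} [TEnc α]

@[fun_prop]
theorem poly_iabs {f : α → ℤ} (hf : Poly f) : Poly (fun a => |f a|) :=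
  (Poly.natCast (Poly.natAbs hf)).congr fun a => by rw [Int.abs_eq_natAbs]

@[fun_prop]
theorem poly_sg {f : α → ℤ} (hf : Poly f) : Poly (fun a => sg (f a)) := by
  unfold sg
  exact Poly.ite (Poly.ilt hf (NPC.Poly.const 0)) (NPC.Poly.const _) (NPC.Poly.const _)

theorem poly_signed : Poly (fun p : List (ℤ × Asg) × List ℤ => signed p.1 p.2) := by
  unfold signed
  have h1 : Poly (fun p : List (ℤ × Asg) × List ℤ =>
      sg (((p.1.zip p.2).map (fun p => sg p.1.1 * p.2)).sum)) := by fun_prop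
  refine NPC.Poly.map (l := fun p : List (ℤ × Asg) × List ℤ => p.1.zip p.2)
    (F := fun (q : List (ℤ × Asg) × List ℤ) (p : (ℤ × Asg) × ℤ) =>
      (p.1, sg (((q.1.zip q.2).map (fun p => sg p.1.1 * p.2)).sum) * p.2)) (by fun_prop) ?_
  refine Poly.pair (by fun_prop) (Poly.imul (h1.comp (Poly.fst Poly.id)) (by fun_prop))

theorem poly_pivotB :
    Poly (fun p : List ((ℤ × Asg) × ℤ) × ((ℤ × Asg) × ℤ) => pivotB p.1 p.2) := by
  unfold pivotB
  refine Poly.and (Poly.ilt (NPC.Poly.const 0) (by fun_prop)) ?_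
  refine Poly.all (l := fun p : List ((ℤ × Asg) × ℤ) × ((ℤ × Asg) × ℤ) => p.1)
    (p := fun (q : List ((ℤ × Asg) × ℤ) × ((ℤ × Asg) × ℤ)) (r : (ℤ × Asg) × ℤ) =>
      !(decide (0 < sg r.1.1 * r.2)) ||
        decide (q.2.1.1.natAbs * r.2.natAbs ≤ r.1.1.natAbs * q.2.2.natAbs)) (by fun_prop) ?_
  refine Poly.or (Poly.not (Poly.ilt (NPC.Poly.const 0) (by fun_prop))) ?_
  exact Poly.decide_le (by fun_prop) (by fun_prop)

theorem poly_newTerms :
    Poly (fun p : List ((ℤ × Asg) × ℤ) × ((ℤ × Asg) × ℤ) => newTerms p.1 p.2) := by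
  unfold newTerms newCoef
  refine Poly.filter (l := fun p : List ((ℤ × Asg) × ℤ) × ((ℤ × Asg) × ℤ) =>
      p.1.map (fun r => (|p.2.2| * r.1.1 - |p.2.1.1| * r.2, r.1.2)))
    (p := fun _ (t : ℤ × Asg) => !decide (t.1 = 0)) ?_ ?_
  · refine NPC.Poly.map (l := fun p : List ((ℤ × Asg) × ℤ) × ((ℤ × Asg) × ℤ) => p.1)
      (F := fun (p : List ((ℤ × Asg) × ℤ) × ((ℤ × Asg) × ℤ)) (r : (ℤ × Asg) × ℤ) =>
        (|p.2.2| * r.1.1 - |p.2.1.1| * r.2, r.1.2)) (by fun_prop) (by fun_prop)
  · exact Poly.not (Poly.decide_eq (by fun_prop) (NPC.Poly.const 0))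

theorem elimStep_eq (r : ℤ × List ℤ) (s : St) : elimStep r s =
    (((signed s.2.2.2 r.2).filter (pivotB (signed s.2.2.2 r.2))).head?).elim s (fun p =>
      (|p.2| * s.1,
      |p.2| * s.2.1 + |p.1.1| * (sg (((s.2.2.2.zip r.2).map (fun p => sg p.1.1 * p.2)).sum) * r.1),
      s.2.2.1, newTerms (signed s.2.2.2 r.2) p)) := by
  unfold elimStep
  cases ((signed s.2.2.2 r.2).filter (pivotB (signed s.2.2.2 r.2))).head? <;> rfl

theorem poly_elimStep : Poly (fun p : (ℤ × List ℤ) × St => elimStep p.1 p.2) := by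
  have hs : Poly (fun p : (ℤ × List ℤ) × St => signed p.2.2.2.2 p.1.2) :=
    Poly.comp (g := fun p : List (ℤ × Asg) × List ℤ => signed p.1 p.2)
      (f := fun p : (ℤ × List ℤ) × St => (p.2.2.2.2, p.1.2)) poly_signed (by fun_prop)
  have h1 : Poly (fun p : (ℤ × List ℤ) × St =>
      sg (((p.2.2.2.2.zip p.1.2).map (fun p => sg p.1.1 * p.2)).sum)) := by fun_prop
  have h2 : Poly (fun p : (ℤ × List ℤ) × St => (((signed p.2.2.2.2 p.1.2).filter
      (pivotB (signed p.2.2.2.2 p.1.2))).head?)) := by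
    refine Poly.head? (Poly.filter (l := fun p : (ℤ × List ℤ) × St => signed p.2.2.2.2 p.1.2)
      (p := fun (p : (ℤ × List ℤ) × St) (x : (ℤ × Asg) × ℤ) =>
        pivotB (signed p.2.2.2.2 p.1.2) x) hs ?_)
    exact Poly.comp (g := fun p : List ((ℤ × Asg) × ℤ) × ((ℤ × Asg) × ℤ) => pivotB p.1 p.2)
      (f := fun p : ((ℤ × List ℤ) × St) × ((ℤ × Asg) × ℤ) => (signed p.1.2.2.2.2 p.1.1.2, p.2))
      poly_pivotB (Poly.pair (hs.comp (Poly.fst Poly.id)) (Poly.snd Poly.id))
  have h3 : Poly (fun p : (ℤ × List ℤ) × St => elimStep p.1 p.2) := by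
    simp only [elimStep_eq]
    refine Poly.optElim (o := fun p : (ℤ × List ℤ) × St => (((signed p.2.2.2.2 p.1.2).filter
      (pivotB (signed p.2.2.2.2 p.1.2))).head?)) (g := fun p => p.2)
      (h := fun (q : (ℤ × List ℤ) × St) (p : (ℤ × Asg) × ℤ) => ((|p.2| * q.2.1,
        |p.2| * q.2.2.1 +
          |p.1.1| * (sg (((q.2.2.2.2.zip q.1.2).map (fun p => sg p.1.1 * p.2)).sum) * q.1.1),
        q.2.2.2.1, newTerms (signed q.2.2.2.2 q.1.2) p) : St)) h2 (by fun_prop) ?_
    refine Poly.pair (by fun_prop) (Poly.pair ?_ (Poly.pair (by fun_prop) ?_))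
    · refine Poly.iadd (by fun_prop) (Poly.imul (by fun_prop) (Poly.imul ?_ (by fun_prop)))
      exact h1.comp (Poly.fst Poly.id)
    · exact Poly.comp (g := fun p : List ((ℤ × Asg) × ℤ) × ((ℤ × Asg) × ℤ) => newTerms p.1 p.2)
        (f := fun p : ((ℤ × List ℤ) × St) × ((ℤ × Asg) × ℤ) => (signed p.1.2.2.2.2 p.1.1.2, p.2))
        poly_newTerms (Poly.pair (hs.comp (Poly.fst Poly.id)) (Poly.snd Poly.id))
  exact h3

theorem poly_units : Poly (fun σ : Asg => units σ) := by
  unfold units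
  fun_prop


end Pool.Agent.H334R5.Cnt
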