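import Mathlib

/-!
# One elimination step

A linear combination `∑ aᵢ Xᵢ` is modified by a multiple of a relation `∑ cᵢ Xᵢ ≈ c₀` in such a
way that one coefficient becomes `0` and `∑ |aᵢ|` does not increase.
-/

set_option autoImplicit false

namespace Pool.Agent.H334R5.Cnt

variable {α : Type}

/-- The sign, never `0`. -/
def sg (a : ℤ) : ℤ := if a < 0 then -1 else 1

theorem sg_mul_self (a : ℤ) : sg a * a = |a| := by
  unfold sg
  split_ifs with h
  · rw [abs_of_neg h]; ring
  · rw [abs_of_nonneg (not_lt.1 h)]; ring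

theorem sg_cases (a : ℤ) : sg a = 1 ∨ sg a = -1 := by
  unfold sg; split_ifs <;> simp

theorem abs_sg_mul (a b : ℤ) : |sg a * b| = |b| := by
  rcases sg_cases a with h | h <;> rw [h] <;> simp

/-- The new coefficient. -/
def newCoef (p : (ℤ × α) × ℤ) (r : (ℤ × α) × ℤ) : ℤ := |p.2| * r.1.1 - |p.1.1| * r.2

/-- The condition on the pivot. -/
def IsPivot (z : List ((ℤ × α) × ℤ)) (p : (ℤ × α) × ℤ) : Prop :=
  0 < sg p.1.1 * p.2 ∧ ∀ r ∈ z, 0 < sg r.1.1 * r.2 → |p.1.1| * |r.2| ≤ |r.1.1| * |p.2|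

theorem exists_pivot {z : List ((ℤ × α) × ℤ)} (hne : ∃ r ∈ z, 0 < sg r.1.1 * r.2) :
    ∃ p ∈ z, IsPivot z p := by
  classical
  -- minimise |a| / |c| among the positive entries
  let S := z.toFinset.filter (fun r => 0 < sg r.1.1 * r.2)
  have hS : S.Nonempty := by
    obtain ⟨r, hr, h⟩ := hne
    exact ⟨r, by simp [S, hr, h]⟩
  obtain ⟨p, hp, hmin⟩ := S.exists_min_image (fun r => ((|r.1.1| : ℤ) : ℚ) / ((|r.2| : ℤ) : ℚ)) hS
  have hp' : p ∈ z ∧ 0 < sg p.1.1 * p.2 := by simpa [S] using hp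
  refine ⟨p, hp'.1, hp'.2, fun r hr h => ?_⟩
  have h1 := hmin r (by simp [S, hr, h])
  have hp2 : (0 : ℚ) < ((|p.2| : ℤ) : ℚ) := by
    have : (0 : ℤ) < |p.2| := by
      rw [abs_pos]
      rintro h0
      rw [h0] at hp'
      simp at hp'
    exact_mod_cast this
  have hr2 : (0 : ℚ) < ((|r.2| : ℤ) : ℚ) := by
    have : (0 : ℤ) < |r.2| := by
      rw [abs_pos]
      rintro h0
      rw [h0] at h
      simp at h
    exact_mod_cast this
  rw [div_le_div_iff₀ hp2 hr2] at h1
  exact_mod_cast h1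

theorem pos_of_sum_nonneg {z : List ((ℤ × α) × ℤ)}
    (hsum : 0 ≤ (z.map (fun r => sg r.1.1 * r.2)).sum) (hne : ∃ r ∈ z, r.2 ≠ 0) :
    ∃ r ∈ z, 0 < sg r.1.1 * r.2 := by
  by_contra hcon
  push Not at hcon
  have key0 : ∀ z : List ((ℤ × α) × ℤ), (∀ r ∈ z, sg r.1.1 * r.2 ≤ 0) →
      (z.map (fun r => sg r.1.1 * r.2)).sum ≤ 0 := by
    intro z
    induction z with
    | nil => intro _; simp
    | cons a z ih =>
      intro h1
      have ha := h1 a List.mem_cons_self
      have := ih fun r hr => h1 r (List.mem_cons_of_mem _ hr)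
      rw [List.map_cons, List.sum_cons]
      omega
  have key : ∀ z : List ((ℤ × α) × ℤ), (∀ r ∈ z, sg r.1.1 * r.2 ≤ 0) → (∃ r ∈ z, r.2 ≠ 0) →
      (z.map (fun r => sg r.1.1 * r.2)).sum < 0 := by
    intro z
    induction z with
    | nil => rintro _ ⟨r, hr, _⟩; simp at hr
    | cons a z ih =>
      intro h1 h2
      have ha := h1 a List.mem_cons_self
      have hz := key0 z fun r hr => h1 r (List.mem_cons_of_mem _ hr)
      rw [List.map_cons, List.sum_cons]
      by_cases h3 : a.2 = 0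
      · have : ∃ r ∈ z, r.2 ≠ 0 := by
          obtain ⟨r, hr, h⟩ := h2
          rcases List.mem_cons.1 hr with rfl | hr
          · exact absurd h3 h
          · exact ⟨r, hr, h⟩
        have := ih (fun r hr => h1 r (List.mem_cons_of_mem _ hr)) this
        omega
      · have : sg a.1.1 * a.2 ≠ 0 := by
          rcases sg_cases a.1.1 with h | h <;> rw [h] <;> simpa using h3
        omega
  exact absurd (key z hcon hne) (not_lt.2 hsum)

/-- The sign condition for the new coefficients. -/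
theorem abs_newCoef {z : List ((ℤ × α) × ℤ)} {p : (ℤ × α) × ℤ} (hp : IsPivot z p)
    {r : (ℤ × α) × ℤ} (hr : r ∈ z) :
    |newCoef p r| = |p.2| * |r.1.1| - |p.1.1| * (sg r.1.1 * r.2) := by
  have h1 : sg r.1.1 * newCoef p r = |p.2| * |r.1.1| - |p.1.1| * (sg r.1.1 * r.2) := by
    unfold newCoef
    rw [← sg_mul_self r.1.1]
    rcases sg_cases r.1.1 with h | h <;> rw [h] <;> ring
  have h2 : 0 ≤ sg r.1.1 * newCoef p r := by
    rw [h1, sub_nonneg]
    rcases lt_or_ge 0 (sg r.1.1 * r.2) with h | h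
    · have h3 := hp.2 r hr h
      have h4 : sg r.1.1 * r.2 = |r.2| := by
        rw [← abs_of_pos h, abs_sg_mul]
      rw [h4]
      linarith [mul_comm |r.1.1| |p.2|]
    · have h3 : |p.1.1| * (sg r.1.1 * r.2) ≤ 0 :=
        mul_nonpos_of_nonneg_of_nonpos (abs_nonneg _) h
      have h4 : 0 ≤ |p.2| * |r.1.1| := by positivity
      linarith
  rw [← abs_sg_mul r.1.1, abs_of_nonneg h2, h1]

theorem sum_sub_aux {β : Type} (l : List β) (f g h : β → ℤ) (a b : ℤ)
    (hl : ∀ r ∈ l, f r = a * g r - b * h r) :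
    (l.map f).sum = a * (l.map g).sum - b * (l.map h).sum := by
  induction l with
  | nil => simp
  | cons x l ih =>
    rw [List.map_cons, List.map_cons, List.map_cons, List.sum_cons, List.sum_cons, List.sum_cons,
      ih (fun r hr => hl r (List.mem_cons_of_mem _ hr)), hl x List.mem_cons_self]
    ring

theorem sum_abs_newCoef {z : List ((ℤ × α) × ℤ)} {p : (ℤ × α) × ℤ} (hp : IsPivot z p) :
    (z.map (fun r => |newCoef p r|)).sum =
      |p.2| * (z.map (fun r => |r.1.1|)).sum - |p.1.1| * (z.map (fun r => sg r.1.1 * r.2)).sum :=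
  sum_sub_aux z _ _ _ _ _ fun _ hr => abs_newCoef hp hr

theorem sum_newCoef (X : α → ℤ) (z : List ((ℤ × α) × ℤ)) (p : (ℤ × α) × ℤ) :
    (z.map (fun r => newCoef p r * X r.1.2)).sum =
      |p.2| * (z.map (fun r => r.1.1 * X r.1.2)).sum -
        |p.1.1| * (z.map (fun r => r.2 * X r.1.2)).sum :=
  sum_sub_aux z _ _ _ _ _ fun r _ => by unfold newCoef; ring

/-- The size of the pivot. -/
theorem pivot_bound {z : List ((ℤ × α) × ℤ)} {p : (ℤ × α) × ℤ} (hp : IsPivot z p)
    (hsum : 0 ≤ (z.map (fun r => sg r.1.1 * r.2)).sum) :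
    |p.1.1| * (z.map (fun r => |r.2|)).sum ≤ 2 * (|p.2| * (z.map (fun r => |r.1.1|)).sum) := by
  have key : ∀ l : List ((ℤ × α) × ℤ), (∀ r ∈ l, r ∈ z) →
      |p.1.1| * (l.map (fun r => |r.2|)).sum ≤ 2 * (|p.2| * (l.map (fun r => |r.1.1|)).sum) -
        |p.1.1| * (l.map (fun r => sg r.1.1 * r.2)).sum := by
    intro l
    induction l with
    | nil => intro _; simp
    | cons a l ih =>
      intro hl
      have h1 := ih fun r hr => hl r (List.mem_cons_of_mem _ hr)
      have h2 : |p.1.1| * |a.2| ≤ 2 * (|p.2| * |a.1.1|) - |p.1.1| * (sg a.1.1 * a.2) := by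
        rcases lt_or_ge 0 (sg a.1.1 * a.2) with h | h
        · have h3 := hp.2 a (hl a List.mem_cons_self) h
          have h4 : sg a.1.1 * a.2 = |a.2| := by
            rw [← abs_of_pos h, abs_sg_mul]
          rw [h4]
          linarith [mul_comm |a.1.1| |p.2|]
        · have h4 : sg a.1.1 * a.2 = -|a.2| := by
            have : |sg a.1.1 * a.2| = -(sg a.1.1 * a.2) := abs_of_nonpos h
            rw [abs_sg_mul] at this
            linarith
          rw [h4]
          have : 0 ≤ |p.2| * |a.1.1| := by positivity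
          linarith
      simp only [List.map_cons, List.sum_cons]
      linarith
  have h1 := key z fun _ h => h
  have h2 : 0 ≤ |p.1.1| * (z.map (fun r => sg r.1.1 * r.2)).sum :=
    mul_nonneg (abs_nonneg _) hsum
  linarith

theorem newCoef_self (p : (ℤ × α) × ℤ) (hp : 0 < sg p.1.1 * p.2) : newCoef p p = 0 := by
  unfold newCoef
  have h1 := sg_mul_self p.1.1
  have h4 : sg p.1.1 * p.2 = |p.2| := by
    rw [← abs_of_pos hp, abs_sg_mul]
  rw [← h4, ← h1]
  ring

/-- The new list of terms. -/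
def newTerms (z : List ((ℤ × α) × ℤ)) (p : (ℤ × α) × ℤ) : List (ℤ × α) :=
  (z.map (fun r => (newCoef p r, r.1.2))).filter (fun t => !decide (t.1 = 0))

theorem sum_filter_aux (l : List (ℤ × α)) (f : ℤ × α → ℤ) (hf : ∀ t, t.1 = 0 → f t = 0) :
    ((l.filter (fun t => !decide (t.1 = 0))).map f).sum = (l.map f).sum := by
  induction l with
  | nil => rfl
  | cons a l ih =>
    by_cases h : a.1 = 0
    · rw [List.filter_cons_of_neg (by simp [h]), ih, List.map_cons, List.sum_cons, hf a h, zero_add]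
    · rw [List.filter_cons_of_pos (by simp [h]), List.map_cons, List.sum_cons, ih, List.map_cons,
        List.sum_cons]

theorem newTerms_sum (X : α → ℤ) (z : List ((ℤ × α) × ℤ)) (p : (ℤ × α) × ℤ) :
    ((newTerms z p).map (fun t => t.1 * X t.2)).sum =
      |p.2| * (z.map (fun r => r.1.1 * X r.1.2)).sum -
        |p.1.1| * (z.map (fun r => r.2 * X r.1.2)).sum := by
  rw [← sum_newCoef]
  unfold newTerms
  rw [sum_filter_aux _ _ (fun t ht => by rw [ht, zero_mul]), List.map_map]
  rfl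

theorem newTerms_abs {z : List ((ℤ × α) × ℤ)} {p : (ℤ × α) × ℤ} (hp : IsPivot z p)
    (hsum : 0 ≤ (z.map (fun r => sg r.1.1 * r.2)).sum) :
    ((newTerms z p).map (fun t => |t.1|)).sum ≤ |p.2| * (z.map (fun r => |r.1.1|)).sum := by
  have h1 : ((newTerms z p).map (fun t => |t.1|)).sum = (z.map (fun r => |newCoef p r|)).sum := by
    unfold newTerms
    rw [sum_filter_aux _ _ (fun t ht => by rw [ht, abs_zero]), List.map_map]
    rfl
  rw [h1, sum_abs_newCoef hp]
  have h2 : 0 ≤ |p.1.1| * (z.map (fun r => sg r.1.1 * r.2)).sum :=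
    mul_nonneg (abs_nonneg _) hsum
  linarith

theorem newTerms_length {z : List ((ℤ × α) × ℤ)} {p : (ℤ × α) × ℤ} (hp : IsPivot z p)
    (hz : p ∈ z) : (newTerms z p).length < z.length := by
  have h0 := newCoef_self p hp.1
  unfold newTerms
  have h1 : (newCoef p p, p.1.2) ∈ z.map (fun r => (newCoef p r, r.1.2)) :=
    List.mem_map_of_mem hz
  have h2 : ((z.map (fun r => (newCoef p r, r.1.2))).filter (fun t => !decide (t.1 = 0))).length <
      (z.map (fun r => (newCoef p r, r.1.2))).length := by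
    rw [List.length_filter_lt_length_iff_exists]
    exact ⟨_, h1, by simp [h0]⟩
  simpa using h2

theorem newTerms_mem {z : List ((ℤ × α) × ℤ)} {p : (ℤ × α) × ℤ} {t : ℤ × α}
    (ht : t ∈ newTerms z p) : ∃ r ∈ z, t = (newCoef p r, r.1.2) := by
  unfold newTerms at ht
  obtain ⟨r, hr, rfl⟩ := List.mem_map.1 (List.mem_filter.1 ht).1
  exact ⟨r, hr, rfl⟩

end Pool.Agent.H334R5.Cnt
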