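import Pool.Agent.H334R5.Cnt.Count
import Pool.Agent.H334R5.Cnt.Elim

/-!
# The algorithm and its correctness
-/

set_option autoImplicit false

namespace Pool.Agent.H334R5.Cnt

open Pool.Agent.NPC

/-- A state: the denominator, the constant, the remaining variables, the terms. -/
abbrev St : Type := ℤ × ℤ × List (List Bool) × List (ℤ × Asg)

/-- The pivot test. -/
def pivotB (z : List ((ℤ × Asg) × ℤ)) (p : (ℤ × Asg) × ℤ) : Bool :=
  decide (0 < sg p.1.1 * p.2) && z.all (fun r => !(decide (0 < sg r.1.1 * r.2)) ||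
    decide (p.1.1.natAbs * r.2.natAbs ≤ r.1.1.natAbs * p.2.natAbs))

theorem pivotB_iff {z : List ((ℤ × Asg) × ℤ)} {p : (ℤ × Asg) × ℤ} :
    pivotB z p = true ↔ IsPivot z p := by
  simp only [pivotB, IsPivot, Bool.and_eq_true, decide_eq_true_eq, List.all_eq_true,
    Bool.or_eq_true, Bool.not_eq_true', decide_eq_false_iff_not]
  refine and_congr_right fun _ => forall₂_congr fun r _ => ?_
  rw [← not_imp_not (b := 0 < sg r.1.1 * r.2), not_imp_not, ← imp_iff_not_or]
  refine imp_congr_right fun _ => ?_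
  rw [Int.abs_eq_natAbs, Int.abs_eq_natAbs, Int.abs_eq_natAbs, Int.abs_eq_natAbs]
  exact_mod_cast Iff.rfl

/-- The signed list. -/
def signed (t : List (ℤ × Asg)) (c : List ℤ) : List ((ℤ × Asg) × ℤ) :=
  (t.zip c).map (fun p => (p.1, sg (((t.zip c).map (fun p => sg p.1.1 * p.2)).sum) * p.2))

/-- One elimination step. -/
def elimStep (r : ℤ × List ℤ) (s : St) : St :=
  match ((signed s.2.2.2 r.2).filter (pivotB (signed s.2.2.2 r.2))).head? with
  | none => s
  | some p => (|p.2| * s.1,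
      |p.2| * s.2.1 + |p.1.1| * (sg (((s.2.2.2.zip r.2).map (fun p => sg p.1.1 * p.2)).sum) * r.1),
      s.2.2.1, newTerms (signed s.2.2.2 r.2) p)

theorem sum_zip_fst {t : List (ℤ × Asg)} {c : List ℤ} (h : c.length = t.length)
    (f : ℤ × Asg → ℤ) : ((t.zip c).map (fun p => f p.1)).sum = (t.map f).sum := by
  have h1 : (t.zip c).map Prod.fst = t := List.map_fst_zip (by omega)
  conv_rhs => rw [← h1]
  rw [List.map_map]
  rfl

theorem sum_zip_snd {t : List (ℤ × Asg)} {c : List ℤ} (h : c.length = t.length)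
    (f : ℤ → ℤ) : ((t.zip c).map (fun p => f p.2)).sum = (c.map f).sum := by
  have h1 : (t.zip c).map Prod.snd = c := List.map_snd_zip (by omega)
  conv_rhs => rw [← h1]
  rw [List.map_map]
  rfl

theorem sum_zip_zipWith (X : Asg → ℤ) : ∀ (t : List (ℤ × Asg)) (c : List ℤ),
    ((t.zip c).map (fun p => p.2 * X p.1.2)).sum =
      (List.zipWith (fun x σ => x * X σ) c (t.map Prod.snd)).sum
  | [], c => by simp
  | t, [] => by simp
  | a :: t, x :: c => by
    simp only [List.zip_cons_cons, List.map_cons, List.sum_cons, List.zipWith_cons_cons]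
    rw [sum_zip_zipWith X t c]

theorem signed_sum_nonneg (t : List (ℤ × Asg)) (c : List ℤ) :
    0 ≤ ((signed t c).map (fun r => sg r.1.1 * r.2)).sum := by
  unfold signed
  rw [List.map_map]
  set S := ((t.zip c).map (fun p => sg p.1.1 * p.2)).sum with hS
  have h1 : ((t.zip c).map ((fun r : (ℤ × Asg) × ℤ => sg r.1.1 * r.2) ∘
      fun p : (ℤ × Asg) × ℤ => (p.1, sg S * p.2))).sum = sg S * S := by
    have := sum_sub_aux (t.zip c) (fun p => sg p.1.1 * (sg S * p.2)) (fun p => sg p.1.1 * p.2)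
      (fun _ => 0) (sg S) 0 (fun r _ => by ring)
    rw [hS]
    rw [← hS]
    simpa [Function.comp_def, ← hS] using this
  rw [h1, sg_mul_self]
  exact abs_nonneg _

theorem signed_sum_fst {t : List (ℤ × Asg)} {c : List ℤ} (h : c.length = t.length)
    (f : ℤ × Asg → ℤ) : ((signed t c).map (fun p => f p.1)).sum = (t.map f).sum := by
  unfold signed
  rw [List.map_map, ← sum_zip_fst h f]
  rfl

theorem signed_sum_abs {t : List (ℤ × Asg)} {c : List ℤ} (h : c.length = t.length) :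
    ((signed t c).map (fun p => |p.2|)).sum = (c.map (fun x => |x|)).sum := by
  unfold signed
  rw [List.map_map, ← sum_zip_snd h (fun x => |x|)]
  congr 1
  refine List.map_congr_left fun p _ => ?_
  simp only [Function.comp]
  rw [abs_sg_mul]

theorem signed_sum_snd (X : Asg → ℤ) (t : List (ℤ × Asg)) (c : List ℤ) :
    ((signed t c).map (fun p => p.2 * X p.1.2)).sum =
      sg (((t.zip c).map (fun p => sg p.1.1 * p.2)).sum) *
        (List.zipWith (fun x σ => x * X σ) c (t.map Prod.snd)).sum := by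
  rw [← sum_zip_zipWith]
  unfold signed
  rw [List.map_map]
  set S := ((t.zip c).map (fun p => sg p.1.1 * p.2)).sum with hS
  have := sum_sub_aux (t.zip c) (fun p => (sg S * p.2) * X p.1.2) (fun p => p.2 * X p.1.2)
      (fun _ => 0) (sg S) 0 (fun r _ => by ring)
  simpa [Function.comp_def] using this

theorem signed_length {t : List (ℤ × Asg)} {c : List ℤ} (h : c.length = t.length) :
    (signed t c).length = t.length := by
  unfold signed
  rw [List.length_map, List.length_zip, h, min_self]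

theorem signed_mem {t : List (ℤ × Asg)} {c : List ℤ} {p : (ℤ × Asg) × ℤ} (hp : p ∈ signed t c) :
    p.1 ∈ t ∧ ∃ x ∈ c, |p.2| = |x| := by
  unfold signed at hp
  obtain ⟨q, hq, rfl⟩ := List.mem_map.1 hp
  have h1 := List.of_mem_zip (a := q.1) (b := q.2) hq
  exact ⟨h1.1, q.2, h1.2, abs_sg_mul _ _⟩

/-- What an elimination step does. -/
theorem elimStep_spec (X : Asg → ℤ) {r : ℤ × List ℤ} {s : St}
    (hlen : r.2.length = s.2.2.2.length) (hne : ∃ x ∈ r.2, x ≠ 0) :
    ∃ (m b ρ : ℤ), 0 < m ∧ 0 ≤ b ∧ |ρ| = 1 ∧ (elimStep r s).1 = m * s.1 ∧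
      (elimStep r s).2.2.1 = s.2.2.1 ∧
      (elimStep r s).2.2.2.length < s.2.2.2.length ∧
      ((elimStep r s).2.2.2.map (fun t => |t.1|)).sum ≤ m * (s.2.2.2.map (fun t => |t.1|)).sum ∧
      (elimStep r s).2.1 + ((elimStep r s).2.2.2.map (fun t => t.1 * X t.2)).sum =
        m * (s.2.1 + (s.2.2.2.map (fun t => t.1 * X t.2)).sum) +
          b * (ρ * (r.1 - (List.zipWith (fun x σ => x * X σ) r.2 (s.2.2.2.map Prod.snd)).sum)) ∧
      b * (r.2.map (fun x => |x|)).sum ≤ 2 * (m * (s.2.2.2.map (fun t => |t.1|)).sum) ∧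
      (∀ t' ∈ (elimStep r s).2.2.2, ∃ t ∈ s.2.2.2, t'.2 = t.2) := by
  set z := signed s.2.2.2 r.2 with hz
  have hsum := signed_sum_nonneg s.2.2.2 r.2
  rw [← hz] at hsum
  have hne' : ∃ q ∈ z, q.2 ≠ 0 := by
    obtain ⟨x, hx, hx0⟩ := hne
    have h1 : (s.2.2.2.zip r.2).map Prod.snd = r.2 := List.map_snd_zip (by omega)
    rw [← h1] at hx
    obtain ⟨q, hq, rfl⟩ := List.mem_map.1 hx
    refine ⟨_, List.mem_map_of_mem (f := fun p : (ℤ × Asg) × ℤ => (p.1,
      sg (((s.2.2.2.zip r.2).map (fun p => sg p.1.1 * p.2)).sum) * p.2)) hq, ?_⟩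
    intro h
    have h2 := congrArg abs h
    simp only at h2
    rw [abs_sg_mul, abs_zero, abs_eq_zero] at h2
    exact hx0 h2
  obtain ⟨p0, hp0, hpiv0⟩ := exists_pivot (pos_of_sum_nonneg hsum hne')
  have hmem0 : p0 ∈ z.filter (pivotB z) := List.mem_filter.2 ⟨hp0, pivotB_iff.2 hpiv0⟩
  obtain ⟨p, hp⟩ : ∃ p, (z.filter (pivotB z)).head? = some p := by
    cases h : z.filter (pivotB z) with
    | nil => rw [h] at hmem0; simp at hmem0
    | cons a l => exact ⟨a, rfl⟩
  have hpm : p ∈ z.filter (pivotB z) := List.mem_of_head? hp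
  obtain ⟨hpz, hpb⟩ := List.mem_filter.1 hpm
  have hpiv := pivotB_iff.1 hpb
  have hs : elimStep r s = (|p.2| * s.1,
      |p.2| * s.2.1 + |p.1.1| * (sg (((s.2.2.2.zip r.2).map (fun p => sg p.1.1 * p.2)).sum) * r.1),
      s.2.2.1, newTerms z p) := by
    unfold elimStep
    rw [← hz, hp]
  rw [hs]
  have hp2 : 0 < |p.2| := by
    rw [abs_pos]
    intro h0
    have := hpiv.1
    rw [h0, mul_zero] at this
    exact lt_irrefl _ this
  refine ⟨|p.2|, |p.1.1|, sg (((s.2.2.2.zip r.2).map (fun p => sg p.1.1 * p.2)).sum), hp2,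
    abs_nonneg _, ?_, rfl, rfl, ?_, ?_, ?_, ?_, ?_⟩
  · rcases sg_cases (((s.2.2.2.zip r.2).map (fun p => sg p.1.1 * p.2)).sum) with h | h <;>
      rw [h] <;> simp
  · have := newTerms_length hpiv hpz
    rwa [hz, signed_length hlen, ← hz] at this
  · refine (newTerms_abs hpiv hsum).trans ?_
    rw [hz, signed_sum_fst hlen (fun t => |t.1|)]
  · change |p.2| * s.2.1 + |p.1.1| * (sg _ * r.1) +
      ((newTerms z p).map (fun t => t.1 * X t.2)).sum = _
    rw [newTerms_sum X, hz, signed_sum_snd, signed_sum_fst hlen (fun t => t.1 * X t.2)]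
    ring
  · have := pivot_bound hpiv hsum
    rw [hz, signed_sum_abs hlen, signed_sum_fst hlen (fun t => |t.1|)] at this
    exact this
  · intro t' ht'
    obtain ⟨q, hq, rfl⟩ := newTerms_mem ht'
    exact ⟨q.1, (signed_mem hq).1, rfl⟩

/-- The magnitudes of the integers in the state. -/
def Mag (B : ℕ) (s : St) : Prop :=
  |s.1| < 2 ^ B ∧ |s.2.1| < 2 ^ B ∧ ∀ t ∈ s.2.2.2, |t.1| < 2 ^ B

theorem Mag.mono {B B' : ℕ} (h : B ≤ B') {s : St} (hs : Mag B s) : Mag B' s := by
  have : (2 : ℤ) ^ B ≤ 2 ^ B' := pow_le_pow_right₀ (by norm_num) h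
  exact ⟨hs.1.trans_le this, hs.2.1.trans_le this, fun t ht => (hs.2.2 t ht).trans_le this⟩

theorem comb_lt {a b c d : ℤ} {W B : ℕ} (ha : |a| < 2 ^ W) (hb : |b| < 2 ^ B) (hc : |c| < 2 ^ B)
    (hd : |d| < 2 ^ W) : |a| * |b| + |c| * |d| < 2 ^ (B + W + 1) := by
  have h1 : |a| * |b| < 2 ^ W * 2 ^ B :=
    mul_lt_mul'' ha hb (abs_nonneg _) (abs_nonneg _)
  have h2 : |c| * |d| < 2 ^ B * 2 ^ W := mul_lt_mul'' hc hd (abs_nonneg _) (abs_nonneg _)
  have h3 : (2 : ℤ) ^ (B + W + 1) = 2 * (2 ^ B * 2 ^ W) := by ring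
  rw [h3]
  linarith

theorem elimStep_mag {B W : ℕ} {r : ℤ × List ℤ} {s : St} (hs : Mag B s) (h1 : |r.1| < 2 ^ W)
    (h2 : ∀ x ∈ r.2, |x| < 2 ^ W) : Mag (B + W + 1) (elimStep r s) := by
  unfold elimStep
  cases hp : ((signed s.2.2.2 r.2).filter (pivotB (signed s.2.2.2 r.2))).head? with
  | none => exact hs.mono (by omega)
  | some p =>
    have hpm := List.mem_of_head? hp
    obtain ⟨hpz, -⟩ := List.mem_filter.1 hpm
    have hp' := signed_mem hpz
    have hp1 := hs.2.2 _ hp'.1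
    have hp2 : |p.2| < 2 ^ W := by
      obtain ⟨x, hx, hx'⟩ := hp'.2
      rw [hx']
      exact h2 x hx
    have hW : (0 : ℤ) < 2 ^ W := by positivity
    have hB : (0 : ℤ) < 2 ^ B := by positivity
    refine ⟨?_, ?_, ?_⟩
    · change |(|p.2| * s.1)| < _
      rw [abs_mul, abs_abs]
      have := comb_lt hp2 hs.1 (show |(0 : ℤ)| < 2 ^ B by simpa using hB)
        (show |(0 : ℤ)| < 2 ^ W by simpa using hW)
      simpa using this
    · change |(|p.2| * s.2.1 + |p.1.1| * (sg _ * r.1))| < _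
      refine (abs_add_le _ _).trans_lt ?_
      rw [abs_mul, abs_mul, abs_abs, abs_abs, abs_sg_mul]
      exact comb_lt hp2 hs.2.1 hp1 h1
    · intro t ht
      obtain ⟨q, hq, rfl⟩ := newTerms_mem ht
      have hq' := signed_mem hq
      change |newCoef p q| < _
      unfold newCoef
      refine (abs_sub _ _).trans_lt ?_
      rw [abs_mul, abs_mul, abs_abs, abs_abs]
      refine comb_lt hp2 (hs.2.2 _ hq'.1) hp1 ?_
      obtain ⟨x, hx, hx'⟩ := hq'.2
      rw [hx']
      exact h2 x hx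

theorem elimStep_terms {r : ℤ × List ℤ} {s : St} :
    (elimStep r s).2.2.1 = s.2.2.1 ∧ (∀ t' ∈ (elimStep r s).2.2.2, ∃ t ∈ s.2.2.2, t'.2 = t.2) ∧
      (elimStep r s).2.2.2.length ≤ s.2.2.2.length := by
  unfold elimStep
  cases hp : ((signed s.2.2.2 r.2).filter (pivotB (signed s.2.2.2 r.2))).head? with
  | none => exact ⟨rfl, fun t' ht' => ⟨t', ht', rfl⟩, le_rfl⟩
  | some p =>
    refine ⟨rfl, fun t' ht' => ?_, ?_⟩
    · obtain ⟨q, hq, rfl⟩ := newTerms_mem ht'
      exact ⟨q.1, (signed_mem hq).1, rfl⟩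
    · refine (List.length_filter_le _ _).trans ?_
      rw [List.length_map]
      unfold signed
      rw [List.length_map, List.length_zip]
      exact min_le_left _ _

end Pool.Agent.H334R5.Cnt
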