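import Pool.Agent.H334R5.Cnt.PolyPart

/-!
# Size bounds
-/

set_option autoImplicit false

namespace Pool.Agent.H334R5.Cnt

open Pool.Agent.NPC

theorem sz_asg_le (σ : Asg) : sz σ ≤ sz (σ.map Prod.fst) + 4 * σ.length := by
  induction σ with
  | nil => simp
  | cons l σ ih =>
    obtain ⟨x, b⟩ := l
    have := sz_bool_le b
    simp only [List.map_cons, sz_list_cons, List.length_cons, sz_pair]
    omega

theorem sz_asg_prefix {σ : Asg} {vs : List (List Bool)} (h : σ.map Prod.fst <+: vs) :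
    sz σ ≤ 5 * sz vs := by
  have h1 := sz_asg_le σ
  have h2 := Clo.sz_sublist h.sublist
  have h3 := h.length_le
  have h4 := length_lt_sz vs
  rw [List.length_map] at h3
  omega

theorem abs_lt_of_sz {x : ℤ} {W : ℕ} (h : sz x ≤ W) : |x| < 2 ^ W := by
  have h1 := size_natAbs_le_sz x
  have h2 : x.natAbs < 2 ^ x.natAbs.size := Nat.lt_size_self _
  have h3 : x.natAbs < 2 ^ W := h2.trans_le (Nat.pow_le_pow_right (by norm_num) (by omega))
  rw [Int.abs_eq_natAbs]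
  exact_mod_cast h3

theorem sz_of_abs_lt {x : ℤ} {B : ℕ} (h : |x| < 2 ^ B) : sz x ≤ 4 * B + 5 := by
  have h1 := sz_int_le x
  have h2 : x.natAbs < 2 ^ B := by
    rw [Int.abs_eq_natAbs] at h
    exact_mod_cast h
  have h3 := Nat.size_le.2 h2
  omega

theorem sz_mem_le {x : ℤ} {c : List ℤ} (h : x ∈ c) : sz x ≤ sz c := (sz_le_of_mem h).le

/-- The size of a state. -/
theorem sz_state_le {vs : List (List Bool)} {B M : ℕ} {s : St} (hm : Mag B s) (hs : Shape vs s)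
    (hl : s.2.2.2.length ≤ 2 * M) :
    sz s ≤ 2 * (4 * B + 5) + sz vs + (2 * M * ((4 * B + 5) + 5 * sz vs + 2) + 1) + 3 := by
  obtain ⟨D, c0, rem, terms⟩ := s
  obtain ⟨done, hd, hn⟩ := hs
  have h1 := sz_of_abs_lt hm.1
  have h2 := sz_of_abs_lt hm.2.1
  have h3 : sz rem ≤ sz vs := Clo.sz_sublist (List.IsSuffix.sublist ⟨done, hd⟩)
  have h4 : ∀ t ∈ terms, sz t ≤ (4 * B + 5) + 5 * sz vs + 1 := by
    rintro ⟨a, σ⟩ ht
    have e1 := sz_of_abs_lt (hm.2.2 _ ht)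
    have e2 : sz σ ≤ 5 * sz vs := sz_asg_prefix (by
      have := hn _ ht
      simp only at this
      rw [this]
      exact ⟨rem, hd⟩)
    simp only at e1
    rw [sz_pair]
    omega
  have h5 := sz_le_length_mul terms _ h4
  have h6 : terms.length * ((4 * B + 5) + 5 * sz vs + 1 + 1) ≤
      2 * M * ((4 * B + 5) + 5 * sz vs + 2) := by
    refine Nat.mul_le_mul hl (by omega)
  simp only [sz_pair]
  simp only at h1 h2
  omega

/-- The bound for the outputs of `R`. -/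
theorem exists_relBound {R : List CNF → ℤ × List ℤ} (hR : Poly R) :
    ∃ pG : Polynomial ℕ, ∀ (ψ : CNF) (vs : List (List Bool)) (M : ℕ) (s : St), Shape vs s →
      s.2.2.2.length ≤ 2 * M →
      |(R (s.2.2.2.map (fun t => ψ ++ units t.2))).1| <
        2 ^ (pG.eval (sz ψ + (2 * M * (5 * sz vs + 1) + 2))) ∧
      ∀ x ∈ (R (s.2.2.2.map (fun t => ψ ++ units t.2))).2,
        |x| < 2 ^ (pG.eval (sz ψ + (2 * M * (5 * sz vs + 1) + 2))) := by
  have h1 : Poly (fun p : CNF × List Asg => R (p.2.map (fun σ => p.1 ++ units σ))) := by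
    refine hR.comp (NPC.Poly.map (l := fun p : CNF × List Asg => p.2)
      (F := fun (p : CNF × List Asg) σ => p.1 ++ units σ) (Poly.snd Poly.id) ?_)
    exact Poly.append (Poly.fst (Poly.fst Poly.id)) (poly_units.comp (Poly.snd Poly.id))
  obtain ⟨pG, hpG⟩ := h1.sz_le
  refine ⟨pG, fun ψ vs M s hs hl => ?_⟩
  have h2 := hpG (ψ, s.2.2.2.map Prod.snd)
  have h3 : (s.2.2.2.map Prod.snd).map (fun σ => ψ ++ units σ) =
      s.2.2.2.map (fun t => ψ ++ units t.2) := by rw [List.map_map]; rfl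
  simp only [h3] at h2
  have h4 : sz (s.2.2.2.map Prod.snd) ≤ 2 * M * (5 * sz vs + 1) + 1 := by
    obtain ⟨done, hd, hn⟩ := hs
    have := sz_le_length_mul (s.2.2.2.map Prod.snd) (5 * sz vs) (by
      intro σ hσ
      obtain ⟨t, ht, rfl⟩ := List.mem_map.1 hσ
      refine sz_asg_prefix ?_
      rw [hn t ht]
      exact ⟨_, hd⟩)
    refine this.trans ?_
    rw [List.length_map]
    have := Nat.mul_le_mul_right (5 * sz vs + 1) hl
    omega
  have h5 : sz (R (s.2.2.2.map (fun t => ψ ++ units t.2))) ≤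
      pG.eval (sz ψ + (2 * M * (5 * sz vs + 1) + 2)) := by
    refine h2.trans (eval_mono _ ?_)
    rw [sz_pair]
    omega
  have h6 : sz (R (s.2.2.2.map (fun t => ψ ++ units t.2))) =
      sz (R (s.2.2.2.map (fun t => ψ ++ units t.2))).1 +
        sz (R (s.2.2.2.map (fun t => ψ ++ units t.2))).2 + 1 := sz_pair _ _
  refine ⟨abs_lt_of_sz (by omega), fun x hx => abs_lt_of_sz ?_⟩
  have := sz_mem_le hx
  omega

theorem iter_mag {R : List CNF → ℤ × List ℤ} {M W : ℕ} {ψ : CNF} {vs : List (List Bool)}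
    (hM : 1 ≤ M)
    (hW : ∀ s : St, Shape vs s → s.2.2.2.length ≤ 2 * M →
      |(R (s.2.2.2.map (fun t => ψ ++ units t.2))).1| < 2 ^ W ∧
      ∀ x ∈ (R (s.2.2.2.map (fun t => ψ ++ units t.2))).2, |x| < 2 ^ W) (k : ℕ) :
    Mag (k * (W + 1) + 1) ((step R M ψ)^[k] (init vs)) := by
  induction k with
  | zero =>
    refine ⟨by simp [init], by simp [init], fun t ht => ?_⟩
    simp only [Function.iterate_zero, id, init, List.mem_singleton] at ht
    subst ht
    simp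
  | succ k ih =>
    rw [Function.iterate_succ_apply']
    obtain ⟨h1, h2⟩ := hW _ (iter_shape k) (iter_length hM k)
    refine (step_mag ih h1 h2).mono ?_
    rw [Nat.succ_mul]
    omega

theorem exists_two_pow_bound (p : Polynomial ℕ) : ∃ C : ℕ, ∀ k : ℕ, p.eval k ≤ 2 ^ (k + C) := by
  induction p using Polynomial.induction_on' with
  | add p q hp hq =>
    obtain ⟨C, hC⟩ := hp
    obtain ⟨C', hC'⟩ := hq
    refine ⟨C + C' + 1, fun k => ?_⟩
    rw [Polynomial.eval_add]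
    have h1 : 2 ^ (k + C) ≤ 2 ^ (k + (C + C')) := Nat.pow_le_pow_right (by norm_num) (by omega)
    have h2 : 2 ^ (k + C') ≤ 2 ^ (k + (C + C')) := Nat.pow_le_pow_right (by norm_num) (by omega)
    have h3 : 2 ^ (k + (C + C' + 1)) = 2 * 2 ^ (k + (C + C')) := by ring
    have := hC k
    have := hC' k
    omega
  | monomial n a =>
    have h1 := tendsto_pow_const_div_const_pow_of_one_lt n (r := (2 : ℝ)) (by norm_num)
    obtain ⟨b, hb⟩ := h1.bddAbove_range
    obtain ⟨C, hC⟩ := exists_nat_ge b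
    refine ⟨C + a, fun k => ?_⟩
    rw [Polynomial.eval_monomial]
    have h2 : ((k : ℝ) ^ n) / 2 ^ k ≤ C := (hb ⟨k, rfl⟩).trans hC
    rw [div_le_iff₀ (by positivity)] at h2
    have h3 : k ^ n ≤ C * 2 ^ k := by exact_mod_cast h2
    have h4 : C < 2 ^ C := Nat.lt_two_pow_self
    have h5 : a < 2 ^ a := Nat.lt_two_pow_self
    calc a * k ^ n ≤ 2 ^ a * (2 ^ C * 2 ^ k) :=
          Nat.mul_le_mul h5.le (h3.trans (Nat.mul_le_mul_right _ h4.le))
      _ = 2 ^ (k + (C + a)) := by ring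

theorem rpow_bound {ε : ℝ} {d K v : ℕ} (hε : 0 < ε) (hd : 1 ≤ (d : ℝ) * ε) (hK : 1 ≤ K)
    (hv : (4 * K) ^ d ≤ v) :
    (2 : ℝ) ^ ((v : ℝ) - (v : ℝ) ^ ε) ≤ ((2 ^ (v - 4 * K) : ℕ) : ℝ) := by
  have hd0 : 1 ≤ d := by
    rcases Nat.eq_zero_or_pos d with h | h
    · rw [h] at hd; norm_num at hd
    · exact h
  have h1 : 4 * K ≤ v := by
    refine le_trans ?_ hv
    calc 4 * K = (4 * K) ^ 1 := (pow_one _).symm
      _ ≤ (4 * K) ^ d := Nat.pow_le_pow_right (by omega) hd0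
  have hK1 : (1 : ℝ) ≤ ((4 * K : ℕ) : ℝ) := by exact_mod_cast (by omega : 1 ≤ 4 * K)
  have h2 : ((4 * K : ℕ) : ℝ) ≤ (v : ℝ) ^ ε := by
    calc ((4 * K : ℕ) : ℝ) = ((4 * K : ℕ) : ℝ) ^ (1 : ℝ) := (Real.rpow_one _).symm
      _ ≤ ((4 * K : ℕ) : ℝ) ^ ((d : ℝ) * ε) := Real.rpow_le_rpow_of_exponent_le hK1 hd
      _ = (((4 * K : ℕ) : ℝ) ^ d) ^ ε := by
          rw [Real.rpow_mul (by positivity), Real.rpow_natCast]
      _ ≤ (v : ℝ) ^ ε := by
          refine Real.rpow_le_rpow (by positivity) ?_ hε.le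
          exact_mod_cast hv
  calc (2 : ℝ) ^ ((v : ℝ) - (v : ℝ) ^ ε) ≤ (2 : ℝ) ^ ((v : ℝ) - ((4 * K : ℕ) : ℝ)) :=
        Real.rpow_le_rpow_of_exponent_le (by norm_num) (by linarith)
    _ = ((2 ^ (v - 4 * K) : ℕ) : ℝ) := by
        rw [← Nat.cast_sub h1, Real.rpow_natCast]
        push_cast
        rfl

end Pool.Agent.H334R5.Cnt
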