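import Pool.Agent.H334R5.Cnt.Defs

/-!
# Counting lemmas
-/

set_option autoImplicit false

namespace Pool.Agent.H334R5.Cnt

open Pool.Agent.NPC

/-- Partial assignments, as lists of literals. -/
abbrev Asg : Type := List (List Bool × Bool)

/-- The unit clauses. -/
def units (σ : Asg) : CNF := σ.map (fun l => [l])

theorem units_append (σ τ : Asg) : units (σ ++ τ) = units σ ++ units τ := List.map_append

theorem mem_vars {x : List Bool} {φ : CNF} : x ∈ vars φ ↔ ∃ C ∈ φ, ∃ b, (x, b) ∈ C := by
  simp only [vars, List.mem_toFinset, List.mem_map, List.mem_flatten, Prod.exists]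
  constructor
  · rintro ⟨y, b, ⟨C, hC, h⟩, rfl⟩
    exact ⟨C, hC, b, h⟩
  · rintro ⟨C, hC, b, h⟩
    exact ⟨x, b, ⟨C, hC, h⟩, rfl⟩

theorem vars_append (φ ψ : CNF) : vars (φ ++ ψ) = vars φ ∪ vars ψ := by
  ext x
  simp only [mem_vars, Finset.mem_union, List.mem_append]
  constructor
  · rintro ⟨C, h | h, h'⟩
    · exact Or.inl ⟨C, h, h'⟩
    · exact Or.inr ⟨C, h, h'⟩
  · rintro (⟨C, h, h'⟩ | ⟨C, h, h'⟩)
    · exact ⟨C, Or.inl h, h'⟩
    · exact ⟨C, Or.inr h, h'⟩

theorem mem_vars_units {x : List Bool} {σ : Asg} : x ∈ vars (units σ) ↔ ∃ b, (x, b) ∈ σ := by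
  simp only [mem_vars, units, List.mem_map]
  constructor
  · rintro ⟨C, ⟨l, hl, rfl⟩, b, hb⟩
    rw [List.mem_singleton] at hb
    exact ⟨b, hb ▸ hl⟩
  · rintro ⟨b, hb⟩
    exact ⟨[(x, b)], ⟨(x, b), hb, rfl⟩, b, List.mem_singleton_self _⟩

theorem satisfies_append {T : Finset (List Bool)} {φ ψ : CNF} :
    Satisfies T (φ ++ ψ) ↔ Satisfies T φ ∧ Satisfies T ψ := by
  simp [Satisfies, List.mem_append, or_imp, forall_and]

theorem satisfies_units {T : Finset (List Bool)} {σ : Asg} :
    Satisfies T (units σ) ↔ ∀ l ∈ σ, (l.1 ∈ T ↔ l.2 = true) := by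
  simp only [Satisfies, units, List.mem_map]
  constructor
  · intro h l hl
    obtain ⟨l', hl', h'⟩ := h [l] ⟨l, hl, rfl⟩
    rw [List.mem_singleton] at hl'
    exact hl' ▸ h'
  · rintro h C ⟨l, hl, rfl⟩
    exact ⟨l, List.mem_singleton_self _, h l hl⟩

theorem vars_append_units {φ : CNF} {σ : Asg} (h : ∀ l ∈ σ, l.1 ∈ vars φ) :
    vars (φ ++ units σ) = vars φ := by
  rw [vars_append, Finset.union_eq_left]
  intro x hx
  obtain ⟨b, hb⟩ := mem_vars_units.1 hx
  exact h _ hb

/-- Splitting according to the value of a variable. -/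
theorem numSat_split {φ : CNF} {x : List Bool} (hx : x ∈ vars φ) :
    numSat φ = numSat (φ ++ units [(x, false)]) + numSat (φ ++ units [(x, true)]) := by
  have hv : ∀ b, vars (φ ++ units [(x, b)]) = vars φ := fun b =>
    vars_append_units (by simpa using hx)
  unfold numSat
  rw [hv, hv]
  rw [← Finset.card_union_of_disjoint]
  · congr 1
    ext T
    simp only [Finset.mem_union, Finset.mem_filter, satisfies_append, satisfies_units,
      List.mem_singleton, forall_eq]
    by_cases h : x ∈ T
    · simp [h]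
    · simp [h]
  · rw [Finset.disjoint_left]
    intro T h1 h2
    simp only [Finset.mem_filter, satisfies_append, satisfies_units,
      List.mem_singleton, forall_eq] at h1 h2
    have h3 := h2.2.2.2 trivial
    have h4 := h1.2.2.1 h3
    exact absurd h4 (by simp)

/-- The clause `x ∨ ¬ x`. -/
def dummy (x : List Bool) : List (List Bool × Bool) := [(x, true), (x, false)]

theorem vars_dummy_cons (x : List Bool) (φ : CNF) : vars (dummy x :: φ) = insert x (vars φ) := by
  ext y
  simp only [mem_vars, Finset.mem_insert, List.mem_cons, dummy]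
  constructor
  · rintro ⟨C, rfl | h, b, hb⟩
    · simp at hb
      tauto
    · exact Or.inr ⟨C, h, b, hb⟩
  · rintro (rfl | ⟨C, h, b, hb⟩)
    · exact ⟨_, Or.inl rfl, true, by simp⟩
    · exact ⟨C, Or.inr h, b, hb⟩

theorem satisfies_dummy_cons {T : Finset (List Bool)} {x : List Bool} {φ : CNF} :
    Satisfies T (dummy x :: φ) ↔ Satisfies T φ := by
  simp only [Satisfies, List.mem_cons, dummy]
  constructor
  · intro h C hC
    exact h C (Or.inr hC)
  · rintro h C (rfl | hC)
    · by_cases hx : x ∈ T
      · exact ⟨(x, true), by simp, by simp [hx]⟩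
      · exact ⟨(x, false), by simp, by simp [hx]⟩
    · exact h C hC

theorem satisfies_insert {T : Finset (List Bool)} {x : List Bool} {φ : CNF} (hx : x ∉ vars φ) :
    Satisfies (insert x T) φ ↔ Satisfies T φ := by
  unfold Satisfies
  refine forall₂_congr fun C hC => ?_
  have key : ∀ l ∈ C, (l.1 ∈ insert x T ↔ l.1 ∈ T) := by
    rintro ⟨y, b⟩ hl
    have : y ≠ x := by
      rintro rfl
      exact hx (mem_vars.2 ⟨C, hC, b, hl⟩)
    simp [this]
  constructor
  · rintro ⟨l, hl, h⟩
    exact ⟨l, hl, by rw [← key l hl]; exact h⟩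
  · rintro ⟨l, hl, h⟩
    exact ⟨l, hl, by rw [key l hl]; exact h⟩

theorem numSat_dummy {x : List Bool} {φ : CNF} (hx : x ∉ vars φ) :
    numSat (dummy x :: φ) = 2 * numSat φ := by
  unfold numSat
  rw [vars_dummy_cons]
  simp only [satisfies_dummy_cons]
  rw [Finset.card_filter, Finset.card_filter, Finset.sum_powerset_insert hx]
  simp only [satisfies_insert hx]
  ring

/-- The names of the padding variables. -/
def pname (n i : ℕ) : List Bool := List.replicate (n + i) true

/-- The padding clauses. -/
def padding (n : ℕ) (l : List ℕ) : CNF := l.map (fun i => dummy (pname n i))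

theorem vars_padding {n : ℕ} {l : List ℕ} {x : List Bool} :
    x ∈ vars (padding n l) ↔ ∃ i ∈ l, x = pname n i := by
  simp only [mem_vars, padding, List.mem_map, dummy]
  constructor
  · rintro ⟨C, ⟨i, hi, rfl⟩, b, hb⟩
    refine ⟨i, hi, ?_⟩
    simp at hb
    tauto
  · rintro ⟨i, hi, rfl⟩
    exact ⟨_, ⟨i, hi, rfl⟩, true, by simp⟩

theorem pname_injective (n : ℕ) : Function.Injective (pname n) := by
  intro i j h
  have := congrArg List.length h
  simp only [pname, List.length_replicate] at this
  omega

theorem numSat_padding {n : ℕ} {φ : CNF} (hn : ∀ x ∈ vars φ, x.length < n) :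
    ∀ l : List ℕ, l.Nodup → numSat (padding n l ++ φ) = 2 ^ l.length * numSat φ ∧
      (vars (padding n l ++ φ)).card = l.length + (vars φ).card := by
  intro l
  induction l with
  | nil => intro _; simp [padding]
  | cons i l ih =>
    intro hl
    rw [List.nodup_cons] at hl
    obtain ⟨h1, h2⟩ := ih hl.2
    have h3 : pname n i ∉ vars (padding n l ++ φ) := by
      rw [vars_append, Finset.mem_union, vars_padding]
      rintro (⟨j, hj, h⟩ | h)
      · exact hl.1 (pname_injective n h ▸ hj)
      · have := hn _ h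
        simp only [pname, List.length_replicate] at this
        omega
    have h4 : padding n (i :: l) ++ φ = dummy (pname n i) :: (padding n l ++ φ) := rfl
    rw [h4, numSat_dummy h3, vars_dummy_cons, Finset.card_insert_of_notMem h3, h1, h2]
    constructor
    · rw [List.length_cons, pow_succ]; ring
    · rw [List.length_cons]; ring

/-- Evaluation of a formula under an assignment. -/
def evalB (σ : Asg) (φ : CNF) : Bool :=
  φ.all fun C => C.any fun l => decide (decide ((l.1, true) ∈ σ) = l.2)

/-- The set of the variables made true. -/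
def trueSet (σ : Asg) : Finset (List Bool) := ((σ.filter (fun l => l.2)).map Prod.fst).toFinset

theorem mem_trueSet {σ : Asg} {x : List Bool} : x ∈ trueSet σ ↔ (x, true) ∈ σ := by
  simp [trueSet]

theorem evalB_iff {σ : Asg} {φ : CNF} : evalB σ φ = true ↔ Satisfies (trueSet σ) φ := by
  simp only [evalB, Satisfies, List.all_eq_true, List.any_eq_true, decide_eq_true_eq, mem_trueSet]
  refine forall₂_congr fun C _ => exists_congr fun l => and_congr_right fun _ => ?_
  cases l.2 <;> simp

theorem numSat_leaf {φ : CNF} {σ : Asg} (h1 : ∀ x ∈ vars φ, ∃ b, (x, b) ∈ σ)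
    (h2 : ∀ l ∈ σ, l.1 ∈ vars φ) :
    numSat (φ ++ units σ) = if evalB σ (φ ++ units σ) = true then 1 else 0 := by
  have hT : ∀ T ∈ (vars φ).powerset, Satisfies T (φ ++ units σ) → T = trueSet σ := by
    intro T hT hs
    rw [satisfies_append, satisfies_units] at hs
    ext x
    rw [mem_trueSet]
    constructor
    · intro hx
      obtain ⟨b, hb⟩ := h1 x (Finset.mem_powerset.1 hT hx)
      have := (hs.2 _ hb).1 hx
      simp only at this
      rwa [this] at hb
    · intro hx
      exact (hs.2 _ hx).2 rfl
  have hsub : trueSet σ ∈ (vars φ).powerset := by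
    rw [Finset.mem_powerset]
    intro x hx
    exact h2 _ (mem_trueSet.1 hx)
  unfold numSat
  rw [vars_append_units h2]
  split_ifs with h
  · rw [evalB_iff] at h
    rw [Finset.card_eq_one]
    refine ⟨trueSet σ, ?_⟩
    ext T
    rw [Finset.mem_filter, Finset.mem_singleton]
    constructor
    · rintro ⟨h3, h4⟩
      exact hT T h3 h4
    · rintro rfl
      exact ⟨hsub, h⟩
  · rw [evalB_iff] at h
    rw [Finset.card_eq_zero, Finset.filter_eq_empty_iff]
    intro T h3 h4
    exact h (hT T h3 h4 ▸ h4)

end Pool.Agent.H334R5.Cnt
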