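import Pool.Agent.NPC.Dec

/-!
# The number of satisfying assignments, and approximate linear relations between such numbers
-/

set_option autoImplicit false

namespace Pool.Agent.H334R5.Cnt

open Pool.Agent.NPC

/-- A CNF formula is a list of clauses, and a clause is a list of literals. The literal `(x, true)`
is the variable with name `x` (a bit string), and the literal `(x, false)` is its negation. -/
abbrev CNF : Type := List (List (List Bool × Bool))

/-- The set of the variables that occur in `φ`. -/
def vars (φ : CNF) : Finset (List Bool) := (φ.flatten.map Prod.fst).toFinset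

/-- The assignment which makes exactly the variables in `T` true satisfies `φ`: every clause
contains a literal made true. -/
def Satisfies (T : Finset (List Bool)) (φ : CNF) : Prop :=
  ∀ C ∈ φ, ∃ l ∈ C, (l.1 ∈ T ↔ l.2 = true)

instance (T : Finset (List Bool)) (φ : CNF) : Decidable (Satisfies T φ) := by
  unfold Satisfies; infer_instance

/-- The number of the satisfying assignments of `φ`. An assignment of the variables that occur in
`φ` is given by the set `T ⊆ vars φ` of the variables which it makes true. -/
def numSat (φ : CNF) : ℕ := ((vars φ).powerset.filter (fun T => Satisfies T φ)).card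

/-- Functions computable in polynomial time, for the standard encodings of the data (`bits` is an
injective encoding by bit strings of lists, pairs, numbers in binary, ...). -/
def FPoly {α β : Type} [TEnc α] [TEnc β] (f : α → β) : Prop :=
  ∃ F : List Bool → List Bool, PolyTime F ∧ ∀ a, F (bits a) = bits (f a)

/-- The integers `c` (not all of them `0`) and `c₀` form a linear relation `∑ cᵢ #φᵢ ≈ c₀` between
the numbers of satisfying assignments of the formulas in the list `L`, which holds up to an error
of at most `E * ∑ |cᵢ|`. -/
def ApproxRelation (E : ℝ) (L : List CNF) (c₀ : ℤ) (c : List ℤ) : Prop :=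
  c.length = L.length ∧ (∃ x ∈ c, x ≠ 0) ∧
    |(((List.zipWith (fun (x : ℤ) (φ : CNF) => x * (numSat φ : ℤ)) c L).sum - c₀ : ℤ) : ℝ)| ≤
      E * ((c.map (fun x => |x|)).sum : ℤ)

/-- `R` finds in polynomial time, for every list `L` of sufficiently many (a polynomial number `q`
in the size of the formulas) CNF formulas on the same set of `v` variables, an approximate linear
relation between the numbers of their satisfying assignments, with error `2 ^ (v - v ^ ε)`. Which
relation is found is up to `R`. -/
def RelationFinder (ε : ℝ) (q : Polynomial ℕ) (R : List CNF → ℤ × List ℤ) : Prop :=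
  FPoly R ∧ ∀ (L : List CNF) (V : Finset (List Bool)) (n : ℕ), L ≠ [] →
    (∀ φ ∈ L, vars φ = V ∧ (bits φ).length ≤ n) → q.eval n ≤ L.length →
    ApproxRelation ((2 : ℝ) ^ ((V.card : ℝ) - (V.card : ℝ) ^ ε)) L (R L).1 (R L).2

end Pool.Agent.H334R5.Cnt
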