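import Pool.Agent.H334R5.Cnt.Bounds

/-!
# The main theorem
-/

set_option autoImplicit false

namespace Pool.Agent.H334R5.Cnt

open Pool.Agent.NPC

/-- The parameter. -/
def KK (c : ℕ) (φ : CNF) : ℕ := sz φ + c

/-- The final state. -/
def countRun (R : List CNF → ℤ × List ℤ) (d c : ℕ) (Mp : Polynomial ℕ) (φ : CNF) : St :=
  (step R (Mp.eval (KK c φ)) (padded d φ (KK c φ)))^[KK c φ * Mp.eval (KK c φ) + 2]
    (init (varList φ))

theorem uKK (c : ℕ) : UPoly (KK c) := (usz NPC.Poly.id).add (UPoly.const c)

theorem poly_countRun {R : List CNF → ℤ × List ℤ} (hR : Poly R) (d c : ℕ) (Mp : Polynomial ℕ)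
    (hM : ∀ k, 1 ≤ Mp.eval k) : Poly (countRun R d c Mp) := by
  have hK := uKK c
  have hMU : UPoly (fun φ => Mp.eval (KK c φ)) := hK.eval Mp
  have hψ : Poly (fun φ => padded d φ (KK c φ)) := poly_padded d NPC.Poly.id hK
  have hT : UPoly (fun φ => KK c φ * Mp.eval (KK c φ) + 2) := (hK.mul hMU).add (UPoly.const 2)
  obtain ⟨pG, hpG⟩ := exists_relBound hR
  obtain ⟨pψ, hpψ⟩ := hψ.sz_le
  obtain ⟨pv, hpv⟩ := poly_varList.sz_le
  set pK : Polynomial ℕ := Polynomial.X + Polynomial.C c with hpK
  set pM : Polynomial ℕ := Mp.comp pK with hpM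
  set pW : Polynomial ℕ := pG.comp (pψ + (Polynomial.C 2 * pM * (Polynomial.C 5 * pv +
    Polynomial.C 1) + Polynomial.C 2)) with hpW
  set pB : Polynomial ℕ := (pK * pM + Polynomial.C 2) * (pW + Polynomial.C 1) + Polynomial.C 1
    with hpB
  set q : Polynomial ℕ := Polynomial.C 2 * (Polynomial.C 4 * pB + Polynomial.C 5) + pv +
    (Polynomial.C 2 * pM * ((Polynomial.C 4 * pB + Polynomial.C 5) + Polynomial.C 5 * pv +
      Polynomial.C 2) + Polynomial.C 1) + Polynomial.C 3 with hq
  refine (Poly.iterLen (l := fun φ => List.replicate (KK c φ * Mp.eval (KK c φ) + 2) ())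
    (s := fun φ => init (varList φ))
    (F := fun φ s => step R (Mp.eval (KK c φ)) (padded d φ (KK c φ)) s) hT
    (poly_init.comp poly_varList) ?_ q ?_).congr fun φ => by
      rw [List.length_replicate]; rfl
  · exact Poly.comp (g := fun p : (ℕ × CNF) × St => step R p.1.1 p.1.2 p.2)
      (f := fun p : CNF × St => ((Mp.eval (KK c p.1), padded d p.1 (KK c p.1)), p.2))
      (poly_step hR) (Poly.pair (Poly.pair (hMU.toPoly.comp (Poly.fst Poly.id))
        (hψ.comp (Poly.fst Poly.id))) (Poly.snd Poly.id))
  · intro φ k hk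
    rw [List.length_replicate] at hk
    set M := Mp.eval (KK c φ) with hMdef
    set ψ := padded d φ (KK c φ) with hψdef
    set vs := varList φ with hvs
    set W := pG.eval (sz ψ + (2 * M * (5 * sz vs + 1) + 2)) with hW
    have hM1 : 1 ≤ M := hM _
    have h1 := iter_mag (R := R) (M := M) (W := W) (ψ := ψ) (vs := vs) hM1
      (fun s hs hl => hpG ψ vs M s hs hl) k
    have h2 := sz_state_le h1 (iter_shape k) (iter_length hM1 k)
    refine h2.trans ?_
    have e1 : M = pM.eval (sz φ) := by
      rw [hpM, Polynomial.eval_comp, hpK, hMdef, KK]; simp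
    have e2 : sz vs ≤ pv.eval (sz φ) := hpv φ
    have e3 : W ≤ pW.eval (sz φ) := by
      rw [hW, hpW, Polynomial.eval_comp]
      refine eval_mono _ ?_
      simp only [Polynomial.eval_add, Polynomial.eval_mul, Polynomial.eval_C]
      rw [← e1]
      have := hpψ φ
      gcongr
    have e4 : k ≤ pK.eval (sz φ) * pM.eval (sz φ) + 2 := by
      rw [← e1]
      have : pK.eval (sz φ) = KK c φ := by simp [hpK, KK]
      rw [this]; exact hk
    have e5 : k * (W + 1) + 1 ≤ pB.eval (sz φ) := by
      rw [hpB]
      simp only [Polynomial.eval_add, Polynomial.eval_mul, Polynomial.eval_C]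
      gcongr
    rw [hq]
    simp only [Polynomial.eval_add, Polynomial.eval_mul, Polynomial.eval_C]
    rw [← e1]
    gcongr

theorem length_varList_lt (φ : CNF) : (varList φ).length < sz φ := by
  unfold varList
  rw [List.length_map]
  induction φ with
  | nil => simp
  | cons C φ ih =>
    rw [List.flatten_cons, List.length_append, sz_list_cons]
    have := length_lt_sz C
    omega

theorem length_lt_of_mem_vars {φ : CNF} {x : List Bool} (hx : x ∈ vars φ) : x.length < sz φ := by
  obtain ⟨C, hC, b, hb⟩ := mem_vars.1 hx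
  have h1 := sz_le_of_mem hC
  have h2 := sz_le_of_mem hb
  rw [sz_pair] at h2
  have h3 := length_lt_sz x
  omega

theorem mem_varList {φ : CNF} {x : List Bool} : x ∈ varList φ ↔ x ∈ vars φ := by
  unfold varList vars
  rw [List.mem_toFinset]

theorem sz_replicate_unit (K : ℕ) : sz (List.replicate K ()) = 2 * K + 1 := by
  induction K with
  | zero => rfl
  | succ K ih => rw [List.replicate_succ, sz_list_cons, ih, sz_unit]; ring

/-- If relations can be found, then the number of satisfying assignments can be computed. -/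
theorem numSat_poly {ε : ℝ} {q : Polynomial ℕ} {R : List CNF → ℤ × List ℤ} (hε : 0 < ε)
    (h : RelationFinder ε q R) : Poly numSat := by
  have hR : Poly R := h.1.poly
  obtain ⟨d, hd'⟩ := exists_nat_ge (1 / ε)
  have hd : 1 ≤ (d : ℝ) * ε := by
    rw [div_le_iff₀ hε] at hd'
    exact hd'
  have hH : Poly (fun p : CNF × List Unit × Asg => padded d p.1 p.2.1.length ++ units p.2.2) := by
    refine Poly.append ?_ (poly_units.comp (Poly.snd (Poly.snd Poly.id)))
    exact poly_padded d (Poly.fst Poly.id) (UPoly.length (Poly.fst (Poly.snd Poly.id)))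
  obtain ⟨pH, hpH⟩ := hH.sz_le
  obtain ⟨pv, hpv⟩ := poly_varList.sz_le
  set β : Polynomial ℕ := pH.comp (Polynomial.C 3 * Polynomial.X + Polynomial.C 5 * pv +
    Polynomial.C 3) with hβ
  set Mp : Polynomial ℕ := q.comp β + Polynomial.C 1 with hMp
  have hMp1 : ∀ k, 1 ≤ Mp.eval k := fun k => by
    rw [hMp]; simp
  obtain ⟨C, hC⟩ := exists_two_pow_bound (Polynomial.X * Mp + Polynomial.C 2)
  set c := C + 1 with hc
  have hT : UPoly (fun φ : CNF => (4 * KK c φ) ^ d) := by
    have h1 : UPoly (fun φ : CNF => 4 * KK c φ) := (UPoly.const 4).mul (uKK c)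
    clear hd hd' hH hpH hβ hMp hMp1 hC hpv
    induction d with
    | zero => simpa using UPoly.const 1
    | succ d ih => simpa only [pow_succ] using ih.mul h1
  refine (poly_readOff.comp (Poly.pair (Poly.pair Poly.id (Poly.npow (NPC.Poly.const 2) hT))
    (poly_countRun hR d c Mp hMp1))).congr fun φ => ?_
  change readOff φ (2 ^ (4 * KK c φ) ^ d) (countRun R d c Mp φ) = numSat φ
  set K := KK c φ with hK
  set t := (4 * K) ^ d with ht
  set ψ := padded d φ K with hψ
  set vs := varList φ with hvs
  set M := Mp.eval K with hM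
  set v := (vars ψ).card with hv
  have hKφ : K = sz φ + C + 1 := by rw [hK, KK, hc]; ring
  have hK1 : 1 ≤ K := by omega
  have hd0 : 1 ≤ d := by
    rcases Nat.eq_zero_or_pos d with h0 | h0
    · rw [h0] at hd; norm_num at hd
    · exact h0
  have h4K : 4 * K ≤ t := by
    calc 4 * K = (4 * K) ^ 1 := (pow_one _).symm
      _ ≤ (4 * K) ^ d := Nat.pow_le_pow_right (by omega) hd0
  have hassoc : ∀ σ : Asg, ψ ++ units σ = padding (sz φ) (List.range t) ++ (φ ++ units σ) :=
    fun σ => by rw [hψ, padded, List.append_assoc]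
  have hpad : ∀ σ : Asg, (∀ l ∈ σ, l.1 ∈ vars φ) →
      numSat (ψ ++ units σ) = 2 ^ t * numSat (φ ++ units σ) ∧
      (vars (ψ ++ units σ)).card = t + (vars φ).card := by
    intro σ hσ
    have h1 := vars_append_units hσ
    have h2 := numSat_padding (n := sz φ) (φ := φ ++ units σ)
      (fun x hx => length_lt_of_mem_vars (by rwa [h1] at hx)) (List.range t) List.nodup_range
    rw [List.length_range, h1] at h2
    rw [hassoc]
    exact h2
  have hψ0 : ψ ++ units [] = ψ := by simp [units]
  have hv1 : v = t + (vars φ).card := by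
    have := (hpad [] (by simp)).2
    rwa [hψ0] at this
  have hN : (vars φ).card ≤ vs.length := by
    rw [hvs]; exact List.toFinset_card_le _
  have hNs : vs.length < sz φ := length_varList_lt φ
  have hsub : ∀ x ∈ vars φ, x ∈ vars ψ := by
    intro x hx
    rw [hψ, padded, vars_append, Finset.mem_union]
    exact Or.inr hx
  set E : ℤ := ((2 ^ (v - 4 * K) : ℕ) : ℤ) with hE
  have hG : Good (fun σ => (numSat (ψ ++ units σ) : ℤ)) vs E M R ψ := by
    refine ⟨by rw [hE]; positivity, hMp1 _, ?_, ?_⟩
    · intro σ x hx hσ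
      have hx' : x ∈ vars (ψ ++ units σ) := by
        rw [vars_append, Finset.mem_union]
        exact Or.inl (hsub x (mem_varList.1 hx))
      have := numSat_split hx'
      simp only [units_append, ← List.append_assoc]
      exact_mod_cast this
    · intro L hL hσ
      have hne : L.map (fun σ => ψ ++ units σ) ≠ [] := by
        intro h0
        rw [List.map_eq_nil_iff] at h0
        rw [h0] at hL
        have := hMp1 K
        simp at hL
        omega
      have h1 := h.2 (L.map (fun σ => ψ ++ units σ)) (vars ψ) (β.eval K) hne (by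
        intro χ hχ
        obtain ⟨σ, hσ', rfl⟩ := List.mem_map.1 hχ
        constructor
        · refine vars_append_units fun l hl => hsub _ (mem_varList.1 ?_)
          exact (hσ σ hσ').subset (List.mem_map_of_mem hl)
        · rw [bits_length]
          have e1 := hpH (φ, List.replicate K (), σ)
          simp only [List.length_replicate] at e1
          refine e1.trans ?_
          rw [hβ, Polynomial.eval_comp]
          refine eval_mono _ ?_
          simp only [Polynomial.eval_add, Polynomial.eval_mul, Polynomial.eval_C,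
            Polynomial.eval_X, sz_pair]
          rw [sz_replicate_unit]
          have e2 := sz_asg_prefix (hσ σ hσ')
          have e3 : sz vs ≤ pv.eval K := (hpv φ).trans (eval_mono _ (by omega))
          omega) (by
        rw [List.length_map]
        refine le_trans ?_ hL
        have e0 : Mp.eval K = q.eval (β.eval K) + 1 := by
          rw [hMp]
          simp only [Polynomial.eval_add, Polynomial.eval_comp, Polynomial.eval_C]
        rw [hM, e0]
        exact Nat.le_succ _)
      obtain ⟨g1, g2, g3⟩ := h1
      rw [List.length_map] at g1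
      refine ⟨g1, g2, ?_⟩
      have g4 := g3.trans (mul_le_mul_of_nonneg_right
        (rpow_bound (v := (vars ψ).card) hε hd hK1 (by rw [← hv, hv1]; omega))
        (by
          have : (0 : ℤ) ≤ ((R (L.map (fun σ => ψ ++ units σ))).2.map (fun x => |x|)).sum := by
            refine List.sum_nonneg ?_
            intro x hx
            obtain ⟨y, -, rfl⟩ := List.mem_map.1 hx
            exact abs_nonneg _
          exact_mod_cast this))
      rw [List.zipWith_map_right] at g4
      rw [hE]
      have g5 : ((|(List.zipWith (fun (x : ℤ) (σ : Asg) => x * (numSat (ψ ++ units σ) : ℤ))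
          (R (L.map (fun σ => ψ ++ units σ))).2 L).sum -
          (R (L.map (fun σ => ψ ++ units σ))).1| : ℤ) : ℝ) ≤
        ((((2 ^ ((vars ψ).card - 4 * K) : ℕ) : ℤ) *
          ((R (L.map (fun σ => ψ ++ units σ))).2.map (fun x => |x|)).sum : ℤ) : ℝ) := by
        push_cast at g4 ⊢
        exact g4
      exact_mod_cast g5
  have hT2 : (K * M + 2) * 1 ≤ 2 ^ (K + C) := by
    have := hC K
    simp only [Polynomial.eval_add, Polynomial.eval_mul, Polynomial.eval_C,
      Polynomial.eval_X] at this
    rw [mul_one]
    exact this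
  refine readOff_eq (X := fun σ => (numSat (ψ ++ units σ) : ℤ)) (vs := vs) (E := E)
    (k := K * M + 2) (by positivity) (iter_inv hG _).1 (iter_rem hG ?_) ?_ ?_ ?_
  · change vs.length * M + 1 < K * M + 2
    have : vs.length * M ≤ K * M := Nat.mul_le_mul_right _ (by omega)
    omega
  · intro σ hσ
    have h1 : ∀ l ∈ σ, l.1 ∈ vars φ := by
      intro l hl
      rw [← mem_varList, ← hvs, ← hσ]
      exact List.mem_map_of_mem hl
    have h2 : ∀ x ∈ vars φ, ∃ b, (x, b) ∈ σ := by
      intro x hx
      rw [← mem_varList, ← hvs, ← hσ] at hx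
      obtain ⟨⟨y, b⟩, hl, rfl⟩ := List.mem_map.1 hx
      exact ⟨b, hl⟩
    rw [(hpad σ h1).1, numSat_leaf h2 h1]
    cases evalB σ (φ ++ units σ) <;> simp
  · have := (hpad [] (by simp)).1
    rw [this]
    simp [units]
  · have h1 : 2 * ((K * M + 2) * (2 ^ (vs.length + 1) * 2 ^ (v - 4 * K))) < 2 ^ t := by
      calc 2 * ((K * M + 2) * (2 ^ (vs.length + 1) * 2 ^ (v - 4 * K)))
          ≤ 2 * (2 ^ (K + C) * (2 ^ (vs.length + 1) * 2 ^ (v - 4 * K))) := by
            rw [mul_one] at hT2
            gcongr
        _ = 2 ^ (1 + (K + C) + (vs.length + 1) + (v - 4 * K)) := by ring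
        _ < 2 ^ t := Nat.pow_lt_pow_right (by norm_num) (by omega)
    rw [hE]
    exact_mod_cast h1

/-- Conversely, exact values give exact relations. -/
theorem relationFinder_of_poly (h : Poly numSat) :
    ∃ R : List CNF → ℤ × List ℤ, RelationFinder 1 0 R := by
  refine ⟨fun L => ((L.head?.elim 0 numSat : ℕ), L.zipIdx.map (fun p =>
    if p.2 = 0 then (1 : ℤ) else 0)), fpoly_of_poly ?_, ?_⟩
  · refine Poly.pair (Poly.natCast ?_) ?_
    · exact Poly.optElim (o := fun L : List CNF => L.head?) (g := fun _ => 0)
        (h := fun _ φ => numSat φ) (Poly.head? Poly.id) (NPC.Poly.const 0)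
        (h.comp (Poly.snd Poly.id))
    · exact NPC.Poly.map (l := fun L : List CNF => L.zipIdx)
        (F := fun _ (p : CNF × ℕ) => if p.2 = 0 then (1 : ℤ) else 0) (Poly.zipIdx Poly.id)
        (Poly.ite (Poly.decide_eq (Poly.snd (Poly.snd Poly.id)) (NPC.Poly.const 0))
          (NPC.Poly.const _) (NPC.Poly.const _))
  · intro L V n hne _ _
    cases L with
    | nil => exact absurd rfl hne
    | cons φ L =>
      have h0 : ∀ (L : List CNF) (k : ℕ), 0 < k → (List.zipWith (fun (x : ℤ) (φ : CNF) =>
          x * (numSat φ : ℤ)) ((L.zipIdx k).map (fun p => if p.2 = 0 then (1 : ℤ) else 0)) L).sum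
            = 0 := by
        intro L
        induction L with
        | nil => intro k _; simp
        | cons a L ih =>
          intro k hk
          rw [List.zipIdx_cons, List.map_cons, List.zipWith_cons_cons, List.sum_cons,
            ih (k + 1) (by omega)]
          simp; omega
      refine ⟨by simp, ⟨1, by simp, one_ne_zero⟩, ?_⟩
      simp only [List.zipIdx_cons, List.map_cons, List.zipWith_cons_cons, List.sum_cons,
        zero_add]
      rw [h0 L 1 one_pos]
      simp only [if_true, one_mul, add_zero, List.head?_cons, Option.elim_some, sub_self]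
      rw [Int.cast_zero, abs_zero]
      refine mul_nonneg (by positivity) ?_
      have : (0 : ℤ) ≤ |(1 : ℤ)| + (((L.zipIdx 1).map (fun p : CNF × ℕ => if p.2 = 0 then (1 : ℤ)
          else 0)).map (fun x => |x|)).sum := by
        refine add_nonneg (abs_nonneg _) (List.sum_nonneg ?_)
        intro x hx
        obtain ⟨y, -, rfl⟩ := List.mem_map.1 hx
        exact abs_nonneg _
      exact_mod_cast this

end Pool.Agent.H334R5.Cnt
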