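import Pool.Agent.H334R5.Cnt.PolyPart1

/-!
# The algorithm runs in polynomial time, second part
-/

set_option autoImplicit false

namespace Pool.Agent.H334R5.Cnt

open Pool.Agent.NPC

attribute [local fun_prop] Poly.iadd Poly.isub Poly.imul Poly.ineg Poly.ilt Poly.ile Poly.isum
  Poly.natAbs Poly.natCast Poly.toNat

variable {α : Type} [TEnc α]

theorem poly_step {R : List CNF → ℤ × List ℤ} (hR : Poly R) :
    Poly (fun p : (ℕ × CNF) × St => step R p.1.1 p.1.2 p.2) := by
  unfold step
  refine Poly.ite (Poly.decide_le (by fun_prop) (by fun_prop)) ?_ ?_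
  · have h1 : Poly (fun p : (ℕ × CNF) × St =>
        p.2.2.2.2.map (fun t => p.1.2 ++ units t.2)) := by
      refine NPC.Poly.map (l := fun p : (ℕ × CNF) × St => p.2.2.2.2)
        (F := fun (p : (ℕ × CNF) × St) (t : ℤ × Asg) => p.1.2 ++ units t.2) (by fun_prop) ?_
      refine Poly.append (by fun_prop) ?_
      exact poly_units.comp (Poly.snd (Poly.snd Poly.id))
    have h2 : Poly (fun p : (ℕ × CNF) × St =>
        ((R (p.2.2.2.2.map (fun t => p.1.2 ++ units t.2)), p.2) : (ℤ × List ℤ) × St)) :=
      Poly.pair (hR.comp h1) (Poly.snd Poly.id)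
    have h3 := Poly.comp poly_elimStep h2
    exact h3
  · have h2 : Poly (fun p : (((ℕ × CNF) × St) × List Bool × List (List Bool)) =>
        ((p.1.2.1, p.1.2.2.1, p.2.2, p.1.2.2.2.2.flatMap (expTerm p.2.1)) : St)) := by
      unfold expTerm
      fun_prop
    refine (Poly.listCases (l := fun p : (ℕ × CNF) × St => p.2.2.2.1) (g := fun p => p.2)
      (h := fun p x rem => ((p.2.1, p.2.2.1, rem, p.2.2.2.2.flatMap (expTerm x)) : St))
      (by fun_prop) (by fun_prop) h2).congr fun p => ?_
    cases p.2.2.2.1 <;> rfl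

/-- The list of the names of the variables. -/
def varList (φ : CNF) : List (List Bool) := φ.flatten.map Prod.fst

theorem poly_varList : Poly varList := by
  unfold varList
  fun_prop

theorem poly_init : Poly init := by
  unfold init
  fun_prop

theorem poly_evalB : Poly (fun p : Asg × CNF => evalB p.1 p.2) := by
  unfold evalB
  refine Poly.all (l := fun p : Asg × CNF => p.2)
    (p := fun (p : Asg × CNF) (C : List (List Bool × Bool)) => C.any fun l =>
      decide (decide ((l.1, true) ∈ p.1) = l.2)) (by fun_prop) ?_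
  refine Poly.any (l := fun p : (Asg × CNF) × List (List Bool × Bool) => p.2)
    (p := fun (p : (Asg × CNF) × List (List Bool × Bool)) (l : List Bool × Bool) =>
      decide (decide ((l.1, true) ∈ p.1.1) = l.2)) (by fun_prop) ?_
  exact Poly.decide_eq (by fun_prop) (by fun_prop)

theorem poly_readOff : Poly (fun p : (CNF × ℕ) × St => readOff p.1.1 p.1.2 p.2) := by
  unfold readOff
  have h1 : Poly (fun p : (CNF × ℕ) × St => (p.2.2.2.2.map (fun t => t.1 *
      (bif evalB t.2 (p.1.1 ++ units t.2) then (p.1.2 : ℤ) else 0))).sum) := by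
    refine Poly.isum (NPC.Poly.map (l := fun p : (CNF × ℕ) × St => p.2.2.2.2)
      (F := fun (p : (CNF × ℕ) × St) (t : ℤ × Asg) => t.1 *
        (bif evalB t.2 (p.1.1 ++ units t.2) then (p.1.2 : ℤ) else 0)) (by fun_prop) ?_)
    refine Poly.imul (by fun_prop) (Poly.cond ?_ (by fun_prop) (NPC.Poly.const 0))
    refine Poly.comp (g := fun p : Asg × CNF => evalB p.1 p.2)
      (f := fun p : ((CNF × ℕ) × St) × (ℤ × Asg) => (p.2.2, p.1.1.1 ++ units p.2.2))
      poly_evalB (Poly.pair (by fun_prop) (Poly.append (by fun_prop) ?_))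
    exact poly_units.comp (Poly.snd (Poly.snd Poly.id))
  refine Poly.div (Poly.toNat (Poly.iadd (Poly.imul (NPC.Poly.const 2) (Poly.iadd (by fun_prop) h1))
    (by fun_prop))) ?_
  exact Poly.mul (Poly.mul (NPC.Poly.const 2) (Poly.toNat (by fun_prop))) (by fun_prop)

/-- The padded formula. -/
def padded (d : ℕ) (φ : CNF) (K : ℕ) : CNF :=
  padding (sz φ) (List.range ((4 * K) ^ d)) ++ φ

theorem poly_padded (d : ℕ) {φ : α → CNF} {K : α → ℕ} (hφ : Poly φ) (hK : UPoly K) :
    Poly (fun a => padded d (φ a) (K a)) := by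
  have hT : UPoly (fun a => (4 * K a) ^ d) := by
    have h1 : UPoly (fun a => 4 * K a) := (UPoly.const 4).mul hK
    induction d with
    | zero => simpa using UPoly.const 1
    | succ d ih => simpa only [pow_succ] using ih.mul h1
  have hn : UPoly (fun a => sz (φ a)) := usz hφ
  have hrep : Poly (fun a => List.replicate (sz (φ a) + (4 * K a) ^ d) true) :=
    (NPC.Poly.map (F := fun _ _ => true) (hn.add hT) (NPC.Poly.const true)).congr fun a => by
      rw [List.map_replicate]
  have h2 : Poly (fun a => (List.range ((4 * K a) ^ d)).map (fun i =>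
      dummy ((List.replicate (sz (φ a) + (4 * K a) ^ d) true).take (sz (φ a) + i)))) := by
    unfold dummy
    refine NPC.Poly.map (l := fun a => List.range ((4 * K a) ^ d))
      (F := fun a i => [((List.replicate (sz (φ a) + (4 * K a) ^ d) true).take (sz (φ a) + i), true),
        ((List.replicate (sz (φ a) + (4 * K a) ^ d) true).take (sz (φ a) + i), false)])
      hT.range ?_
    have h3 : Poly (fun p : α × ℕ =>
        (List.replicate (sz (φ p.1) + (4 * K p.1) ^ d) true).take (sz (φ p.1) + p.2)) := by
      refine Clo.poly_take (hrep.comp (Poly.fst Poly.id)) ?_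
      exact Poly.add (hn.toPoly.comp (Poly.fst Poly.id)) (Poly.snd Poly.id)
    exact Poly.cons (Poly.pair h3 (NPC.Poly.const _)) (Poly.cons (Poly.pair h3 (NPC.Poly.const _))
      (NPC.Poly.const _))
  refine (Poly.append h2 hφ).congr fun a => ?_
  unfold padded padding
  congr 1
  refine List.map_congr_left fun i hi => ?_
  rw [List.mem_range] at hi
  unfold pname
  rw [List.take_replicate, min_eq_left (by omega)]

end Pool.Agent.H334R5.Cnt
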