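import Pool.Agent.H334R5.Cnt.Alg

/-!
# The whole run
-/

set_option autoImplicit false

namespace Pool.Agent.H334R5.Cnt

open Pool.Agent.NPC

/-- Expansion of a term. -/
def expTerm (x : List Bool) (t : ℤ × Asg) : List (ℤ × Asg) :=
  [(t.1, t.2 ++ [(x, false)]), (t.1, t.2 ++ [(x, true)])]

/-- One step. -/
def step (R : List CNF → ℤ × List ℤ) (M : ℕ) (ψ : CNF) (s : St) : St :=
  if M ≤ s.2.2.2.length then elimStep (R (s.2.2.2.map (fun t => ψ ++ units t.2))) s
  else match s.2.2.1 with
    | [] => s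
    | x :: rem => (s.1, s.2.1, rem, s.2.2.2.flatMap (expTerm x))

/-- The initial state. -/
def init (vs : List (List Bool)) : St := (1, 0, vs, [(1, [])])

structure Inv (X : Asg → ℤ) (vs : List (List Bool)) (E : ℤ) (k : ℕ) (s : St) : Prop where
  pos : 0 < s.1
  rem : ∃ done, done ++ s.2.2.1 = vs ∧ ∀ t ∈ s.2.2.2, t.2.map Prod.fst = done
  l1 : (s.2.2.2.map (fun t => |t.1|)).sum ≤ 2 ^ (vs.length - s.2.2.1.length) * s.1
  err : |s.1 * X [] - (s.2.1 + (s.2.2.2.map (fun t => t.1 * X t.2)).sum)| ≤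
    s.1 * (k * (2 ^ (vs.length + 1) * E))

structure Good (X : Asg → ℤ) (vs : List (List Bool)) (E : ℤ) (M : ℕ)
    (R : List CNF → ℤ × List ℤ) (ψ : CNF) : Prop where
  E0 : 0 ≤ E
  M1 : 1 ≤ M
  split : ∀ (σ : Asg) (x : List Bool), x ∈ vs → (∀ l ∈ σ, l.1 ∈ vs) →
    X σ = X (σ ++ [(x, false)]) + X (σ ++ [(x, true)])
  rel : ∀ L : List Asg, M ≤ L.length → (∀ σ ∈ L, σ.map Prod.fst <+: vs) →
    (R (L.map (fun σ => ψ ++ units σ))).2.length = L.length ∧
    (∃ x ∈ (R (L.map (fun σ => ψ ++ units σ))).2, x ≠ 0) ∧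
    |(List.zipWith (fun x σ => x * X σ) (R (L.map (fun σ => ψ ++ units σ))).2 L).sum -
      (R (L.map (fun σ => ψ ++ units σ))).1| ≤
        E * ((R (L.map (fun σ => ψ ++ units σ))).2.map (fun x => |x|)).sum

/-- The potential. -/
def pot (M : ℕ) (s : St) : ℕ := s.2.2.1.length * M + s.2.2.2.length

theorem sum_flatMap_expTerm (x : List Bool) (f g : ℤ × Asg → ℤ) (l : List (ℤ × Asg))
    (h : ∀ t ∈ l, f (t.1, t.2 ++ [(x, false)]) + f (t.1, t.2 ++ [(x, true)]) = g t) :
    ((l.flatMap (expTerm x)).map f).sum = (l.map g).sum := by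
  induction l with
  | nil => rfl
  | cons a l ih =>
    rw [List.flatMap_cons, List.map_append, List.sum_append,
      ih fun t ht => h t (List.mem_cons_of_mem _ ht), List.map_cons, List.sum_cons,
      ← h a List.mem_cons_self]
    simp [expTerm]

theorem length_flatMap_expTerm (x : List Bool) (l : List (ℤ × Asg)) :
    (l.flatMap (expTerm x)).length = 2 * l.length := by
  induction l with
  | nil => rfl
  | cons a l ih =>
    rw [List.flatMap_cons, List.length_append, ih, List.length_cons]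
    simp [expTerm]
    ring

theorem mem_flatMap_expTerm {x : List Bool} {l : List (ℤ × Asg)} {t : ℤ × Asg}
    (ht : t ∈ l.flatMap (expTerm x)) : ∃ t' ∈ l, t.1 = t'.1 ∧ ∃ b, t.2 = t'.2 ++ [(x, b)] := by
  obtain ⟨t', ht', h⟩ := List.mem_flatMap.1 ht
  simp only [expTerm, List.mem_cons, List.not_mem_nil, or_false] at h
  rcases h with rfl | rfl
  · exact ⟨t', ht', rfl, false, rfl⟩
  · exact ⟨t', ht', rfl, true, rfl⟩

variable {X : Asg → ℤ} {vs : List (List Bool)} {E : ℤ} {M : ℕ} {R : List CNF → ℤ × List ℤ}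
  {ψ : CNF}

theorem step_inv (hG : Good X vs E M R ψ) {k : ℕ} {s : St} (hs : Inv X vs E k s) :
    Inv X vs E (k + 1) (step R M ψ s) ∧
      ((step R M ψ s = s ∧ s.2.2.1 = []) ∨ pot M (step R M ψ s) < pot M s) := by
  obtain ⟨done, hd, hn⟩ := hs.rem
  have hE := hG.E0
  have hEk : ∀ m : ℤ, 0 ≤ m → m * (k * (2 ^ (vs.length + 1) * E)) ≤
      m * ((k + 1 : ℕ) * (2 ^ (vs.length + 1) * E)) := by
    intro m hm
    refine mul_le_mul_of_nonneg_left ?_ hm
    have : (0 : ℤ) ≤ 2 ^ (vs.length + 1) * E := by positivity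
    push_cast
    nlinarith
  unfold step
  by_cases hM : M ≤ s.2.2.2.length
  · rw [if_pos hM]
    set r := R (s.2.2.2.map (fun t => ψ ++ units t.2)) with hr
    have hr' : r = R ((s.2.2.2.map Prod.snd).map (fun σ => ψ ++ units σ)) := by
      rw [hr, List.map_map]; rfl
    obtain ⟨g1, g2, g3⟩ := hG.rel (s.2.2.2.map Prod.snd) (by simpa using hM) (by
      intro σ hσ
      obtain ⟨t, ht, rfl⟩ := List.mem_map.1 hσ
      rw [hn t ht]
      exact ⟨_, hd⟩)
    rw [← hr'] at g1 g2 g3
    rw [List.length_map] at g1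
    obtain ⟨m, b, ρ, hm, hb, hρ, e1, e2, e3, e4, e5, e6, e7⟩ := elimStep_spec X g1 g2
    refine ⟨⟨?_, ?_, ?_, ?_⟩, Or.inr ?_⟩
    · rw [e1]; exact mul_pos hm hs.pos
    · refine ⟨done, by rw [e2]; exact hd, fun t' ht' => ?_⟩
      obtain ⟨t, ht, h⟩ := e7 t' ht'
      rw [h]; exact hn t ht
    · rw [e1, e2]
      refine e4.trans ?_
      have := mul_le_mul_of_nonneg_left hs.l1 hm.le
      linarith [this]
    · rw [e1, e5]
      set Y := (List.zipWith (fun x σ => x * X σ) r.2 (s.2.2.2.map Prod.snd)).sum with hY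
      have h1 : m * s.1 * X [] - (m * (s.2.1 + (s.2.2.2.map (fun t => t.1 * X t.2)).sum) +
          b * (ρ * (r.1 - Y))) = m * (s.1 * X [] - (s.2.1 +
          (s.2.2.2.map (fun t => t.1 * X t.2)).sum)) + (b * ρ) * (Y - r.1) := by ring
      rw [h1]
      refine (abs_add_le _ _).trans ?_
      rw [abs_mul, abs_mul, abs_mul, abs_of_pos hm, abs_of_nonneg hb, hρ, mul_one]
      have h2 : m * |s.1 * X [] - (s.2.1 + (s.2.2.2.map (fun t => t.1 * X t.2)).sum)| ≤
          m * (s.1 * (k * (2 ^ (vs.length + 1) * E))) := mul_le_mul_of_nonneg_left hs.err hm.le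
      have h3 : b * |Y - r.1| ≤ E * (2 * (m * (s.2.2.2.map (fun t => |t.1|)).sum)) := by
        calc b * |Y - r.1| ≤ b * (E * (r.2.map (fun x => |x|)).sum) :=
              mul_le_mul_of_nonneg_left g3 hb
          _ = E * (b * (r.2.map (fun x => |x|)).sum) := by ring
          _ ≤ _ := mul_le_mul_of_nonneg_left e6 hE
      have h4 : (s.2.2.2.map (fun t => |t.1|)).sum ≤ 2 ^ vs.length * s.1 := by
        refine hs.l1.trans (mul_le_mul_of_nonneg_right ?_ hs.pos.le)
        exact pow_le_pow_right₀ (by norm_num) (Nat.sub_le _ _)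
      have h5 : E * (2 * (m * (s.2.2.2.map (fun t => |t.1|)).sum)) ≤
          E * (2 * (m * (2 ^ vs.length * s.1))) := by
        refine mul_le_mul_of_nonneg_left ?_ hE
        have := mul_le_mul_of_nonneg_left h4 hm.le
        linarith
      have h6 : E * (2 * (m * (2 ^ vs.length * s.1))) = m * s.1 * (2 ^ (vs.length + 1) * E) := by
        rw [pow_succ]; ring
      push_cast
      calc _ ≤ m * (s.1 * (k * (2 ^ (vs.length + 1) * E))) +
            m * s.1 * (2 ^ (vs.length + 1) * E) := by linarith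
        _ = _ := by ring
    · unfold pot
      rw [e2]
      omega
  · rw [if_neg hM]
    have hinv : Inv X vs E (k + 1) s := ⟨hs.pos, hs.rem, hs.l1, hs.err.trans (hEk _ hs.pos.le)⟩
    cases hrem : s.2.2.1 with
    | nil => exact ⟨hinv, Or.inl ⟨rfl, rfl⟩⟩
    | cons x rem =>
      simp only
      rw [hrem] at hd
      have hx : x ∈ vs := by rw [← hd]; simp
      refine ⟨⟨hs.pos, ?_, ?_, ?_⟩, Or.inr ?_⟩
      · refine ⟨done ++ [x], by rw [← hd]; simp, fun t ht => ?_⟩
        obtain ⟨t', ht', -, b, h2⟩ := mem_flatMap_expTerm ht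
        rw [h2, List.map_append, hn t' ht']
        rfl
      · change ((s.2.2.2.flatMap (expTerm x)).map (fun t => |t.1|)).sum ≤
          2 ^ (vs.length - rem.length) * s.1
        rw [sum_flatMap_expTerm x (fun t => |t.1|) (fun t => 2 * |t.1|) _ (fun t _ => by ring),
          show (s.2.2.2.map (fun t => 2 * |t.1|)).sum = 2 * (s.2.2.2.map (fun t => |t.1|)).sum by
            have := sum_sub_aux s.2.2.2 (fun t => 2 * |t.1|) (fun t => |t.1|) (fun _ => 0) 2 0
              (fun r _ => by ring)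
            simpa using this]
        have h1 := hs.l1
        rw [hrem] at h1
        have h2 : vs.length - rem.length = (vs.length - (x :: rem).length) + 1 := by
          rw [← hd]; simp; omega
        rw [h2, pow_succ]
        linarith
      · change |s.1 * X [] - (s.2.1 + ((s.2.2.2.flatMap (expTerm x)).map
          (fun t => t.1 * X t.2)).sum)| ≤ _
        rw [sum_flatMap_expTerm x (fun t => t.1 * X t.2) (fun t => t.1 * X t.2)]
        · exact hs.err.trans (hEk _ hs.pos.le)
        · intro t ht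
          have h1 := hG.split t.2 x hx (by
            intro l hl
            have h2 : l.1 ∈ t.2.map Prod.fst := List.mem_map_of_mem hl
            rw [hn t ht] at h2
            rw [← hd]
            exact List.mem_append_left _ h2)
          simp only
          rw [h1]
          ring
      · unfold pot
        simp only [hrem, List.length_cons]
        rw [length_flatMap_expTerm]
        have : (rem.length + 1) * M = rem.length * M + M := by ring
        omega

theorem init_inv (hE : 0 ≤ E) : Inv X vs E 0 (init vs) := by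
  refine ⟨by simp [init], ⟨[], by simp [init], by simp [init]⟩, by simp [init], ?_⟩
  simp [init]

theorem step_rem_nil {s : St} (h : s.2.2.1 = []) : (step R M ψ s).2.2.1 = [] := by
  unfold step
  split_ifs with hM
  · rw [elimStep_terms.1, h]
  · rw [h]; exact h

theorem iter_inv (hG : Good X vs E M R ψ) (k : ℕ) :
    Inv X vs E k ((step R M ψ)^[k] (init vs)) ∧
      (((step R M ψ)^[k] (init vs)).2.2.1 = [] ∨
        pot M ((step R M ψ)^[k] (init vs)) + k ≤ pot M (init vs)) := by
  induction k with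
  | zero => exact ⟨init_inv hG.E0, Or.inr le_rfl⟩
  | succ k ih =>
    rw [Function.iterate_succ_apply']
    obtain ⟨h1, h2⟩ := ih
    obtain ⟨h3, h4⟩ := step_inv hG h1
    refine ⟨h3, ?_⟩
    rcases h2 with h2 | h2
    · exact Or.inl (step_rem_nil h2)
    · rcases h4 with h4 | h4
      · left
        rw [h4.1]; exact h4.2
      · right
        omega

theorem iter_rem (hG : Good X vs E M R ψ) {k : ℕ} (hk : vs.length * M + 1 < k) :
    ((step R M ψ)^[k] (init vs)).2.2.1 = [] := by
  rcases (iter_inv hG k).2 with h | h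
  · exact h
  · have : pot M (init vs) = vs.length * M + 1 := by simp [pot, init]
    omega

/-- The length of the list of terms. -/
theorem step_length {s : St} (hM : 1 ≤ M) (h : s.2.2.2.length ≤ 2 * M) :
    (step R M ψ s).2.2.2.length ≤ 2 * M := by
  unfold step
  split_ifs with hM'
  · exact elimStep_terms.2.2.trans h
  · cases hrem : s.2.2.1 with
    | nil => exact h
    | cons x rem =>
      simp only
      rw [length_flatMap_expTerm]
      omega

theorem iter_length (hM : 1 ≤ M) (k : ℕ) :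
    ((step R M ψ)^[k] (init vs)).2.2.2.length ≤ 2 * M := by
  induction k with
  | zero => simp [init]; omega
  | succ k ih =>
    rw [Function.iterate_succ_apply']
    exact step_length hM ih

/-- The magnitude of the integers. -/
theorem step_mag {B W : ℕ} {s : St} (hs : Mag B s)
    (h1 : |(R (s.2.2.2.map (fun t => ψ ++ units t.2))).1| < 2 ^ W)
    (h2 : ∀ x ∈ (R (s.2.2.2.map (fun t => ψ ++ units t.2))).2, |x| < 2 ^ W) :
    Mag (B + W + 1) (step R M ψ s) := by
  unfold step
  split_ifs with hM'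
  · exact elimStep_mag hs h1 h2
  · cases hrem : s.2.2.1 with
    | nil => exact hs.mono (by omega)
    | cons x rem =>
      refine Mag.mono (B := B) (by omega) ⟨hs.1, hs.2.1, fun t ht => ?_⟩
      obtain ⟨t', ht', h, -⟩ := mem_flatMap_expTerm ht
      rw [h]
      exact hs.2.2 t' ht'

/-- The shape of the terms. -/
def Shape (vs : List (List Bool)) (s : St) : Prop :=
  ∃ done, done ++ s.2.2.1 = vs ∧ ∀ t ∈ s.2.2.2, t.2.map Prod.fst = done

theorem step_shape {s : St} (hs : Shape vs s) : Shape vs (step R M ψ s) := by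
  obtain ⟨done, hd, hn⟩ := hs
  unfold step
  split_ifs with hM'
  · refine ⟨done, by rw [elimStep_terms.1]; exact hd, fun t' ht' => ?_⟩
    obtain ⟨t, ht, h⟩ := elimStep_terms.2.1 t' ht'
    rw [h]; exact hn t ht
  · cases hrem : s.2.2.1 with
    | nil => exact ⟨done, by rw [hrem] at hd; rw [hrem]; exact hd, hn⟩
    | cons x rem =>
      rw [hrem] at hd
      refine ⟨done ++ [x], by rw [← hd]; simp, fun t ht => ?_⟩
      obtain ⟨t', ht', -, b, h2⟩ := mem_flatMap_expTerm ht
      rw [h2, List.map_append, hn t' ht']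
      rfl

theorem iter_shape (k : ℕ) : Shape vs ((step R M ψ)^[k] (init vs)) := by
  induction k with
  | zero => exact ⟨[], by simp [init], by simp [init]⟩
  | succ k ih =>
    rw [Function.iterate_succ_apply']
    exact step_shape ih

/-- Reading off the result. -/
def readOff (φ : CNF) (P : ℕ) (s : St) : ℕ :=
  (2 * (s.2.1 + (s.2.2.2.map (fun t => t.1 *
    (bif evalB t.2 (φ ++ units t.2) then (P : ℤ) else 0))).sum) + s.1 * P).toNat /
      (2 * s.1.toNat * P)

theorem readOff_eq {φ : CNF} {P n : ℕ} {s : St} {k : ℕ} (hP : 0 < P)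
    (hs : Inv X vs E k s) (hrem : s.2.2.1 = [])
    (hX : ∀ σ : Asg, σ.map Prod.fst = vs → X σ = bif evalB σ (φ ++ units σ) then (P : ℤ) else 0)
    (hX0 : X [] = P * n) (hsmall : 2 * (k * (2 ^ (vs.length + 1) * E)) < P) :
    readOff φ P s = n := by
  obtain ⟨done, hd, hn⟩ := hs.rem
  rw [hrem, List.append_nil] at hd
  subst hd
  have h1 : (s.2.2.2.map (fun t => t.1 * X t.2)).sum = (s.2.2.2.map (fun t => t.1 *
      (bif evalB t.2 (φ ++ units t.2) then (P : ℤ) else 0))).sum := by
    congr 1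
    refine List.map_congr_left fun t ht => ?_
    rw [hX t.2 (hn t ht)]
  have herr := hs.err
  rw [h1, hX0] at herr
  unfold readOff
  set S := s.2.1 + (s.2.2.2.map (fun t => t.1 *
      (bif evalB t.2 (φ ++ units t.2) then (P : ℤ) else 0))).sum with hS
  obtain ⟨D, hD⟩ : ∃ D : ℕ, s.1 = D := ⟨s.1.toNat, by have := hs.pos; omega⟩
  have hD0 : 0 < D := by have := hs.pos; rw [hD] at this; exact_mod_cast this
  rw [hD] at herr ⊢
  rw [Int.toNat_natCast]
  have h2 : (2 : ℤ) * (D * (k * (2 ^ (done.length + 1) * E))) < D * P := by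
    have := mul_lt_mul_of_pos_left hsmall (show (0 : ℤ) < D by exact_mod_cast hD0)
    linarith
  rw [abs_le] at herr
  have h3 : (2 * D * P * n : ℤ) < 2 * S + D * P := by nlinarith [herr.2]
  have h4 : (2 * S + D * P : ℤ) < 2 * D * P * (n + 1) := by nlinarith [herr.1]
  have h5 : (0 : ℤ) ≤ 2 * S + D * P := by
    have : (0 : ℤ) ≤ 2 * D * P * n := by positivity
    linarith
  have h6 : (((2 * S + D * P).toNat : ℕ) : ℤ) = 2 * S + D * P := Int.toNat_of_nonneg h5
  refine Nat.div_eq_of_lt_le ?_ ?_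
  · have : ((n * (2 * D * P) : ℕ) : ℤ) ≤ (((2 * S + D * P).toNat : ℕ) : ℤ) := by
      rw [h6]; push_cast; linarith
    exact_mod_cast this
  · have : (((2 * S + D * P).toNat : ℕ) : ℤ) < (((n + 1) * (2 * D * P) : ℕ) : ℤ) := by
      rw [h6]; push_cast; linarith
    exact_mod_cast this

end Pool.Agent.H334R5.Cnt
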